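import Mathlib
import Pool.Agent.Helper11_PGL.StmtK
import Pool.Agent.Helper18_PGL.Hbl
import Pool.Agent.Helper97_PGH.Local

/-!
# The local inequality for relations between powers of linear forms
-/

set_option autoImplicit false

open PGH PGH.Place

universe u

namespace PGL.H87

variable {k E : Type*} [Field k] [Field E] [Algebra k E]

/-- among `n + 1` independent forms one has minimal order -/
theorem exists_mem_ord_eq {n N : ℕ} (v : Place k E) (p : Fin N → Fin (n + 1) → k)
    (y : Fin (n + 1) → E) (α : ℤ) (s : Finset (Fin N)) (hs : s.card = n + 1)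
    (hli : LinearIndependent k (fun i : s => p i)) (hge : ∀ j, v.Ge α (y j))
    (hne : ∃ j, ¬ v.Ge (α + 1) (y j)) (hl : ∀ i, lin (p i) y ≠ 0) :
    ∃ i ∈ s, v.ord (lin (p i) y) = α := by
  by_contra hcon
  push Not at hcon
  have h1 : ∀ i ∈ s, v.Ge (α + 1) (lin (p i) y) := by
    intro i hi
    rw [v.ge_iff (hl i)]
    have h2 : α ≤ v.ord (lin (p i) y) := (v.ge_iff (hl i)).1 (PGL.H18.ge_lin v y α hge (p i))
    have h3 := hcon i hi
    omega
  have hspan : Submodule.span k (Set.range (fun i : s => p i)) = ⊤ := by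
    apply hli.span_eq_top_of_card_eq_finrank'
    simp [hs]
  have hle : Submodule.span k (Set.range (fun i : s => p i)) ≤ PGL.H18.geSub v y (α + 1) := by
    rw [Submodule.span_le]
    rintro _ ⟨i, rfl⟩
    exact h1 i i.2
  rw [hspan] at hle
  obtain ⟨j, hj⟩ := hne
  apply hj
  have h4 : (Pi.single j (1 : k) : Fin (n + 1) → k) ∈ PGL.H18.geSub v y (α + 1) := hle trivial
  have h5 : v.Ge (α + 1) (lin (Pi.single j (1 : k)) y) := h4
  rwa [PGL.H18.lin_single] at h5

/-- the order of the value of a homogeneous polynomial -/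
theorem ge_aeval {n e : ℕ} (v : Place k E) (y : Fin n → E) (α : ℤ) (hge : ∀ j, v.Ge α (y j))
    (g : MvPolynomial (Fin n) k) (hg : g.IsHomogeneous e) :
    v.Ge (e * α) (MvPolynomial.aeval y g) := by
  rw [MvPolynomial.aeval_def, MvPolynomial.eval₂_eq]
  refine Ge.sum (fun m hm => ?_)
  have h1 : v.Ge (∑ i ∈ m.support, (m i : ℤ) * α) (∏ i ∈ m.support, y i ^ m i) :=
    Place.Ge.prod _ _ _ (fun i _ => (hge i).pow (m i))
  have h2 : ∑ i ∈ m.support, (m i : ℤ) * α = e * α := by
    rw [← Finset.sum_mul]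
    congr 1
    have h3 := hg (MvPolynomial.mem_support_iff.1 hm)
    rw [← h3, Finsupp.weight_apply, Finsupp.sum]
    simp
  rw [h2] at h1
  exact (v.ge_const _).mul' h1 (by simp)

/-- if some power of every coordinate is in the ideal of the forms in `s`, one of them has
minimal order -/
theorem exists_mem_ord_eq_of_pow {n N : ℕ} (v : Place k E) (p : Fin N → Fin (n + 1) → k)
    (y : Fin (n + 1) → E) (α : ℤ) (s : Finset (Fin N))
    (hs : ∀ j, ∃ (e : ℕ) (g : Fin N → MvPolynomial (Fin (n + 1)) k),
      (∀ i, (g i).IsHomogeneous e) ∧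
        y j ^ (e + 1) = ∑ i ∈ s, MvPolynomial.aeval y (g i) * lin (p i) y)
    (hge : ∀ j, v.Ge α (y j)) (hne : ∃ j, ¬ v.Ge (α + 1) (y j)) (hl : ∀ i, lin (p i) y ≠ 0) :
    ∃ i ∈ s, v.ord (lin (p i) y) = α := by
  by_contra hcon
  push Not at hcon
  have h1 : ∀ i ∈ s, v.Ge (α + 1) (lin (p i) y) := by
    intro i hi
    rw [v.ge_iff (hl i)]
    have h2 : α ≤ v.ord (lin (p i) y) := (v.ge_iff (hl i)).1 (PGL.H18.ge_lin v y α hge (p i))
    have h3 := hcon i hi
    omega
  obtain ⟨j, hj⟩ := hne
  obtain ⟨e, g, hg, hpow⟩ := hs j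
  have hj0 : y j ≠ 0 := by
    intro h
    apply hj
    rw [h]
    exact v.ge_zero _
  have h2 : v.Ge (e * α + (α + 1)) (y j ^ (e + 1)) := by
    rw [hpow]
    exact Ge.sum (fun i hi => (ge_aeval v y α hge (g i) (hg i)).mul (h1 i hi))
  rw [v.ge_iff (pow_ne_zero _ hj0), v.ord_pow] at h2
  rw [v.ge_iff hj0] at hj
  have h3 := (v.ge_iff hj0).1 (hge j)
  have h4 : v.ord (y j) = α := by omega
  rw [h4] at h2
  push_cast at h2
  linarith

/-- the local inequalities -/
theorem local_ineq {n d N r : ℕ} (v : Place k E) (p : Fin N → Fin (n + 1) → k)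
    (y : Fin (n + 1) → E) (α : ℤ) (u : E) (a : Fin N → Fin r → ℤ) (m : Fin r → ℕ)
    (β z : Fin r → E)
    (hp : ∀ s : Finset (Fin N), s.card = n + 1 → LinearIndependent k (fun i : s => p i))
    (hd : ∀ s : Finset (Fin N), s.card = d + 1 →
      ∀ j, ∃ (e : ℕ) (g : Fin N → MvPolynomial (Fin (n + 1)) k), (∀ i, (g i).IsHomogeneous e) ∧
        y j ^ (e + 1) = ∑ i ∈ s, MvPolynomial.aeval y (g i) * lin (p i) y)
    (hstar : ∀ I : Finset (Fin N), I.Nonempty → I.card ≤ d → ∀ t : ℤ, ∃ j,
      ¬ (m j : ℤ) ∣ ∑ i ∈ I, a i j + t * ∑ i, a i j)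
    (hu : u ≠ 0) (hge : ∀ j, v.Ge α (y j)) (hne : ∃ j, ¬ v.Ge (α + 1) (y j))
    (hl : ∀ i, lin (p i) y ≠ 0)
    (hrel : ∀ j, ∏ i, (lin (p i) y / u) ^ a i j = β j * z j ^ m j) :
    (∀ i, α ≤ v.ord (lin (p i) y)) ∧
    ((∀ j, v.ord (β j) = 0) → ∑ i, (v.ord (lin (p i) y) - α) ≤
      (n + 1) * ∑ i, max 0 (v.ord (lin (p i) y) - α - 1)) ∧
    ∑ i, (v.ord (lin (p i) y) - α) ≤
      (n + 1) * ∑ i, max 0 (v.ord (lin (p i) y) - α - 1) + n := by
  classical
  have h0 : ∀ i, α ≤ v.ord (lin (p i) y) := fun i =>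
    (v.ge_iff (hl i)).1 (PGL.H18.ge_lin v y α hge (p i))
  set e : Fin N → ℤ := fun i => v.ord (lin (p i) y) - α with he
  have he0 : ∀ i, 0 ≤ e i := fun i => by
    have := h0 i
    simp only [he]; omega
  let I : Finset (Fin N) := Finset.univ.filter (fun i => 0 < e i)
  have hIn : I.card ≤ n := by
    by_contra hcon
    obtain ⟨s, hsI, hs⟩ := Finset.exists_subset_card_eq (show n + 1 ≤ I.card by omega)
    obtain ⟨i, hi, h1⟩ := exists_mem_ord_eq v p y α s hs (hp s hs) hge hne hl
    have h2 := (Finset.mem_filter.1 (hsI hi)).2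
    simp only [he] at h2; omega
  have hId : I.card ≤ d := by
    by_contra hcon
    obtain ⟨s, hsI, hs⟩ := Finset.exists_subset_card_eq (show d + 1 ≤ I.card by omega)
    obtain ⟨i, hi, h1⟩ := exists_mem_ord_eq_of_pow v p y α s (hd s hs) hge hne hl
    have h2 := (Finset.mem_filter.1 (hsI hi)).2
    simp only [he] at h2; omega
  set Mx : ℤ := ∑ i, max 0 (e i - 1) with hMx
  have hMx0 : 0 ≤ Mx := Finset.sum_nonneg (fun i _ => le_max_left _ _)
  have hsum : ∑ i, e i = Mx + I.card := by
    have h1 : ∀ i, e i = max 0 (e i - 1) + (if 0 < e i then 1 else 0) := by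
      intro i
      have := he0 i
      split_ifs with h
      · rw [max_eq_right (by omega)]; ring
      · have h2 : e i = 0 := by omega
        rw [h2]; simp
    rw [Finset.sum_congr rfl (fun i _ => h1 i), Finset.sum_add_distrib, ← hMx]
    congr 1
    simp [I]
  have hIn' : (I.card : ℤ) ≤ n := by exact_mod_cast hIn
  have hn0 : (0 : ℤ) ≤ n := by positivity
  refine ⟨h0, ?_, ?_⟩
  · intro hβ
    rw [hsum]
    by_cases hI : I.Nonempty
    · have hpos : 1 ≤ Mx := by
        by_contra hcon
        have hM0 : Mx = 0 := by omega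
        have hz := (Finset.sum_eq_zero_iff_of_nonneg (fun i _ => le_max_left _ _)).1 (hMx ▸ hM0)
        have hone : ∀ i, e i = if i ∈ I then 1 else 0 := by
          intro i
          have h1 := hz i (Finset.mem_univ _)
          have h2 := he0 i
          have h3 : e i - 1 ≤ 0 := by rw [← h1]; exact le_max_right _ _
          split_ifs with h
          · have := (Finset.mem_filter.1 h).2
            omega
          · have h4 : ¬ 0 < e i := fun h5 => h (Finset.mem_filter.2 ⟨Finset.mem_univ _, h5⟩)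
            omega
        obtain ⟨j, hj⟩ := hstar I hI hId (α - v.ord u)
        apply hj
        have hq : ∀ i, lin (p i) y / u ≠ 0 := fun i => div_ne_zero (hl i) hu
        have hprod : v.ord (∏ i, (lin (p i) y / u) ^ a i j) =
            ∑ i, a i j * (v.ord (lin (p i) y) - v.ord u) := by
          have h1 : ∀ s : Finset (Fin N), v.ord (∏ i ∈ s, (lin (p i) y / u) ^ a i j) =
              ∑ i ∈ s, a i j * (v.ord (lin (p i) y) - v.ord u) := by
            intro s
            induction s using Finset.induction_on with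
            | empty => simp
            | insert i s hi ih =>
              rw [Finset.prod_insert hi, Finset.sum_insert hi, v.ord_mul (zpow_ne_zero _ (hq i))
                (Finset.prod_ne_zero_iff.2 (fun i _ => zpow_ne_zero _ (hq i))), ih, v.ord_zpow,
                v.ord_div (hl i) hu]
          exact h1 Finset.univ
        have hne0 : β j * z j ^ m j ≠ 0 := by
          rw [← hrel j]
          exact Finset.prod_ne_zero_iff.2 (fun i _ => zpow_ne_zero _ (hq i))
        rw [hrel j, v.ord_mul (left_ne_zero_of_mul hne0) (right_ne_zero_of_mul hne0), hβ j,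
          v.ord_pow, zero_add] at hprod
        have h5 : ∑ i, a i j * (v.ord (lin (p i) y) - v.ord u) =
            ∑ i ∈ I, a i j + (α - v.ord u) * ∑ i, a i j := by
          have h6 : ∀ i, a i j * (v.ord (lin (p i) y) - v.ord u) =
              (if i ∈ I then a i j else 0) + (α - v.ord u) * a i j := by
            intro i
            have h7 := hone i
            have h8 : v.ord (lin (p i) y) = e i + α := by simp only [he]; ring
            rw [h8, h7]
            split_ifs <;> ring
          rw [Finset.sum_congr rfl (fun i _ => h6 i), Finset.sum_add_distrib, ← Finset.mul_sum]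
          congr 1
          rw [Finset.sum_ite_mem, Finset.univ_inter]
        rw [← h5, ← hprod]
        exact dvd_mul_right _ _
      nlinarith
    · rw [Finset.not_nonempty_iff_eq_empty] at hI
      rw [hI, Finset.card_empty, Nat.cast_zero, add_zero]
      nlinarith
  · rw [hsum]
    nlinarith

end PGL.H87
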