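import Mathlib
import Pool.Agent.Helper11_PGL.StmtT

/-!
# A partition of points in general position into subsets of curves of small degree
-/

set_option autoImplicit false

open PGH

universe u

namespace PGL.H87

/-- the points `p i`, `i ∈ I`, are on a curve of degree less than `card I / C` -/
def NiceSet (k : Type u) [Field k] [IsAlgClosed k] (n C : ℕ) {N : ℕ} (p : Fin N → Fin (n + 1) → k)
    (I : Finset (Fin N)) : Prop :=
  ∃ (R : Type u) (_ : Field R) (_ : Algebra k R) (_ : FF k R) (f : Fin (n + 1) → R)
    (b : Multiset (Place k R)) (Q : Fin N → Place k R) (lam : Fin N → R),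
    LinearIndependent k f ∧ PolesLe f b ∧ C * Multiset.card b < I.card ∧ Set.InjOn Q I ∧
    ∀ i ∈ I, ∀ j, (Q i).Ge 1 (lam i * f j - algebraMap k R (p i j))

theorem partition (hC : CurveStmt.{u}) (n C : ℕ) : ∃ Λ : ℕ, ∀ (k : Type u) [Field k]
    [IsAlgClosed k] [CharZero k] (N : ℕ) (p : Fin N → Fin (n + 1) → k),
    (∀ s : Finset (Fin N), s.card = n + 1 → LinearIndependent k (fun i : s => p i)) →
    ∃ P : Finset (Finset (Fin N)), (P : Set (Finset (Fin N))).PairwiseDisjoint id ∧
      (∀ I ∈ P, NiceSet k n C p I) ∧ (Finset.univ \ P.biUnion id).card ≤ Λ := by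
  classical
  obtain ⟨N₀, hN₀⟩ := hC n C
  refine ⟨N₀, ?_⟩
  intro k _ _ _ N p hp
  suffices h : ∀ (c : ℕ) (S : Finset (Fin N)), S.card = c →
      ∃ P : Finset (Finset (Fin N)), (P : Set (Finset (Fin N))).PairwiseDisjoint id ∧
        (∀ I ∈ P, I ⊆ S ∧ NiceSet k n C p I) ∧ (S \ P.biUnion id).card ≤ N₀ by
    obtain ⟨P, h1, h2, h3⟩ := h _ Finset.univ rfl
    exact ⟨P, h1, fun I hI => (h2 I hI).2, h3⟩
  intro c
  induction c using Nat.strong_induction_on with
  | _ c ih =>
    intro S hS
    by_cases hlt : c < N₀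
    · refine ⟨∅, by simp, by simp, ?_⟩
      simp
      omega
    · let e : Fin S.card → Fin N := fun t => S.orderEmbOfFin rfl t
      have heS : ∀ t, e t ∈ S := fun t => Finset.orderEmbOfFin_mem S rfl t
      have hinj : Function.Injective e := (S.orderEmbOfFin rfl).injective
      have hgen : ∀ s : Finset (Fin S.card), s.card = n + 1 →
          LinearIndependent k (fun i : s => p (e i)) := by
        intro s hs
        have h1 := hp (s.map ⟨e, hinj⟩) (by rw [Finset.card_map, hs])
        let g : s → (s.map ⟨e, hinj⟩ : Finset (Fin N)) := fun i =>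
          ⟨e i, Finset.mem_map.2 ⟨i, i.2, rfl⟩⟩
        have hg : Function.Injective g := by
          intro a b hab
          have h2 : (g a : Fin N) = (g b : Fin N) := by rw [hab]
          exact Subtype.ext (hinj h2)
        exact h1.comp g hg
      obtain ⟨R, _, _, _, f, b, I', Q, lam, hf, hb, hcard, hQi, hQ⟩ :=
        hN₀ k S.card (fun t => p (e t)) (by omega) hgen
      have hI'0 : 0 < I'.card := by omega
      obtain ⟨i₀, hi₀⟩ := Finset.card_pos.1 hI'0
      let I : Finset (Fin N) := I'.map ⟨e, hinj⟩
      have hIcard : I.card = I'.card := Finset.card_map _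
      have hIS : I ⊆ S := by
        intro i hi
        obtain ⟨t, -, rfl⟩ := Finset.mem_map.1 hi
        exact heS t
      have hnice : NiceSet k n C p I := by
        refine ⟨R, inferInstance, inferInstance, inferInstance, f, b,
          Function.extend e Q (fun _ => Q i₀), Function.extend e lam 0, hf, hb,
          by rw [hIcard]; exact hcard, ?_, ?_⟩
        · intro i hi j hj hij
          obtain ⟨t, ht, rfl⟩ := Finset.mem_map.1 (Finset.mem_coe.1 hi)
          obtain ⟨t', ht', rfl⟩ := Finset.mem_map.1 (Finset.mem_coe.1 hj)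
          simp only [Function.Embedding.coeFn_mk, hinj.extend_apply] at hij
          have := hQi (Finset.mem_coe.2 ht) (Finset.mem_coe.2 ht') hij
          rw [this]
        · intro i hi j
          obtain ⟨t, ht, rfl⟩ := Finset.mem_map.1 hi
          simp only [Function.Embedding.coeFn_mk, hinj.extend_apply]
          exact hQ t ht j
      obtain ⟨P, hP1, hP2, hP3⟩ := ih (S \ I).card (by
        rw [← hS]
        apply Finset.card_lt_card
        rw [Finset.ssubset_iff_of_subset Finset.sdiff_subset]
        refine ⟨e i₀, heS i₀, ?_⟩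
        intro h
        exact (Finset.mem_sdiff.1 h).2 (Finset.mem_map.2 ⟨i₀, hi₀, rfl⟩)) (S \ I) rfl
      have hnot : ∀ J ∈ P, Disjoint I J := by
        intro J hJ
        rw [Finset.disjoint_left]
        intro i hi hiJ
        exact (Finset.mem_sdiff.1 ((hP2 J hJ).1 hiJ)).2 hi
      refine ⟨insert I P, ?_, ?_, ?_⟩
      · rw [Finset.coe_insert, Set.pairwiseDisjoint_insert]
        refine ⟨hP1, fun J hJ _ => hnot J hJ⟩
      · intro J hJ
        rw [Finset.mem_insert] at hJ
        rcases hJ with rfl | hJ
        · exact ⟨hIS, hnice⟩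
        · exact ⟨(hP2 J hJ).1.trans Finset.sdiff_subset, (hP2 J hJ).2⟩
      · refine (Finset.card_le_card ?_).trans hP3
        intro i hi
        rw [Finset.mem_sdiff, Finset.biUnion_insert, Finset.mem_union, not_or] at hi
        exact Finset.mem_sdiff.2 ⟨Finset.mem_sdiff.2 ⟨hi.1, hi.2.1⟩, hi.2.2⟩

end PGL.H87
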