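import Mathlib
import Pool.Agent.Helper87_PGL.Loc
import Pool.Agent.Helper87_PGL.Part
import Pool.Agent.Helper15_PGL.Hb

/-!
# The height bound for vectors with relations between powers of linear forms
-/

set_option autoImplicit false

open PGH PGH.Place
open scoped TensorProduct

universe u

namespace PGL.H87

section

variable {k E : Type u} [Field k] [IsAlgClosed k] [CharZero k] [Field E] [Algebra k E] [FF k E]

/-- `α` is the minimal order of the `y j` -/
def IsMin {n : ℕ} (v : Place k E) (y : Fin n → E) (α : ℤ) : Prop :=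
  (∀ j, v.Ge α (y j)) ∧ ∃ j, ¬ v.Ge (α + 1) (y j)

theorem IsMin.unique {n : ℕ} {v : Place k E} {y : Fin n → E} {α α' : ℤ} (h : IsMin v y α)
    (h' : IsMin v y α') : α = α' := by
  rcases lt_trichotomy α α' with hlt | heq | hlt
  · obtain ⟨j, hj⟩ := h.2
    exact absurd ((h'.1 j).mono (by omega)) hj
  · exact heq
  · obtain ⟨j, hj⟩ := h'.2
    exact absurd ((h.1 j).mono (by omega)) hj

theorem exists_isMin {n : ℕ} (y : Fin n → E) (hy : y ≠ 0) :
    ∃ α : Place k E → ℤ, (∀ v, IsMin v y (α v)) ∧ ∃ s : Finset (Place k E), ∀ v ∉ s, α v = 0 := by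
  classical
  have hne : (Finset.univ.filter (fun j => y j ≠ 0)).Nonempty := by
    obtain ⟨j, hj⟩ := Function.ne_iff.1 hy
    exact ⟨j, Finset.mem_filter.2 ⟨Finset.mem_univ _, hj⟩⟩
  refine ⟨fun v => (Finset.univ.filter (fun j => y j ≠ 0)).inf' hne (fun j => v.ord (y j)), ?_, ?_⟩
  · intro v
    refine ⟨fun j => ?_, ?_⟩
    · by_cases hj : y j = 0
      · rw [hj]; exact v.ge_zero _
      · rw [v.ge_iff hj]
        exact Finset.inf'_le (fun j => v.ord (y j)) (Finset.mem_filter.2 ⟨Finset.mem_univ _, hj⟩)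
    · obtain ⟨j, hj, h1⟩ := Finset.exists_mem_eq_inf' hne (fun j => v.ord (y j))
      refine ⟨j, ?_⟩
      rw [v.ge_iff (Finset.mem_filter.1 hj).2]
      dsimp only
      rw [h1]
      omega
  · have hfin : ∀ w : E, ({P : Place k E | P.ord w ≠ 0}).Finite := fun w => finite_support w
    refine ⟨Finset.univ.biUnion (fun j => (hfin (y j)).toFinset), ?_⟩
    intro v hv
    have h0 : ∀ j, v.ord (y j) = 0 := by
      intro j
      by_contra hcon
      apply hv
      rw [Finset.mem_biUnion]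
      exact ⟨j, Finset.mem_univ _, (Set.Finite.mem_toFinset _).2 hcon⟩
    obtain ⟨j, hj, h1⟩ := Finset.exists_mem_eq_inf' hne (fun j => v.ord (y j))
    change (Finset.univ.filter (fun j => y j ≠ 0)).inf' hne (fun j => v.ord (y j)) = 0
    rw [h1, h0]

/-- the inequality given by a curve for the points in `I` -/
def CurveIneq {n N : ℕ} (p : Fin N → Fin (n + 1) → k) (y : Fin (n + 1) → E)
    (cp : Place k E → ℕ) (sc : Finset (Place k E)) (I : Finset (Fin N)) (B : ℕ) : Prop :=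
  ∀ α : Place k E → ℤ, (∀ v, IsMin v y (α v)) → ∃ s₁ : Finset (Place k E),
    ∀ s : Finset (Place k E), s₁ ⊆ s → sc ⊆ s →
      ∑ v ∈ s, ∑ i ∈ I, max 0 (v.ord (lin (p i) y) - α v - 1) ≤
        2 * (B : ℤ) * (-∑ v ∈ s, α v) + (B : ℤ) * ∑ v ∈ sc, (cp v : ℤ)

theorem curveIneq (hK : KIneqStmt.{u}) {R : Type u} [Field R] [Algebra k R] [FF k R] {n N : ℕ}
    (f : Fin (n + 1) → R) (b : Multiset (Place k R)) (I : Finset (Fin N)) (Q : Fin N → Place k R)
    (lam : Fin N → R) (p : Fin N → Fin (n + 1) → k) (y : Fin (n + 1) → E) (D : Derivation ℤ E E)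
    (del : Derivation k R R) (cp : Place k E → ℕ) (sc : Finset (Place k E))
    (hf : LinearIndependent k f) (hb : PolesLe f b) (hQi : Set.InjOn Q I)
    (hQ : ∀ i ∈ I, ∀ j, (Q i).Ge 1 (lam i * f j - algebraMap k R (p i j)))
    (hDk : ∀ c : k, D (algebraMap k E c) = 0) (hDc : ∀ w : E, D w = 0 → ∃ c : k, algebraMap k E c = w)
    (hDge : ∀ v : Place k E, DGe v D (-(cp v : ℤ))) (hcp : ∀ v ∉ sc, cp v = 0)
    (hdel : del ≠ 0) (hcop : IsCoprime (yT k y f) (yT k y (fun s => del (f s))))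
    (hlin : ∀ i, lin (p i) y ≠ 0) (hy : y ≠ 0) :
    CurveIneq p y cp sc I (Multiset.card b) := by
  classical
  intro α hα
  let φ : Fin I.card → Fin N := fun t => I.orderEmbOfFin rfl t
  have hφI : ∀ t, φ t ∈ I := fun t => Finset.orderEmbOfFin_mem I rfl t
  have hφinj : Function.Injective φ := (I.orderEmbOfFin rfl).injective
  have himg : Finset.univ.image φ = I := by
    apply Finset.eq_of_subset_of_card_le
    · intro x hx
      obtain ⟨t, -, rfl⟩ := Finset.mem_image.1 hx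
      exact hφI t
    · rw [Finset.card_image_of_injective _ hφinj, Finset.card_univ, Fintype.card_fin]
  have hQinj : Function.Injective (fun t => Q (φ t)) := by
    intro s t hst
    exact hφinj (hQi (hφI s) (hφI t) hst)
  obtain ⟨α', s₀, hα1, hα2, hα3, hα4⟩ := hK k E R n I.card f b (fun t => Q (φ t))
    (fun t => lam (φ t)) (fun t => p (φ t)) y D del cp sc hf hb hQinj
    (fun t j => hQ (φ t) (hφI t) j) hDk hDc hDge hcp hdel hcop (fun t => hlin (φ t)) hy
  have hαα : ∀ v, α' v = α v := fun v => IsMin.unique ⟨hα1 v, hα2 v⟩ (hα v)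
  refine ⟨s₀, fun s hs hsc => ?_⟩
  have h1 := hα4 s hs hsc
  simp only [hαα] at h1
  have h2 : ∀ v : Place k E, ∑ i ∈ I, max 0 (v.ord (lin (p i) y) - α v - 1) =
      ∑ t : Fin I.card, max 0 (v.ord (lin (p (φ t)) y) - α v - 1) := by
    intro v
    conv_lhs => rw [← himg]
    rw [Finset.sum_image (fun a _ b _ hab => hφinj hab)]
  simp only [h2]
  exact h1

/-- the height bound -/
theorem hbC {n d N r Λ : ℕ} (P : Finset (Finset (Fin N))) (Bf : Finset (Fin N) → ℕ)
    (p : Fin N → Fin (n + 1) → k) (y : Fin (n + 1) → E) (u : E) (a : Fin N → Fin r → ℤ)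
    (m : Fin r → ℕ) (β z : Fin r → E) (cp : Place k E → ℕ) (sc : Finset (Place k E))
    (hP : (P : Set (Finset (Fin N))).PairwiseDisjoint id)
    (hPB : ∀ I ∈ P, 4 * (n + 1) * Bf I ≤ I.card)
    (hPI : ∀ I ∈ P, CurveIneq p y cp sc I (Bf I))
    (hΛ : (Finset.univ \ P.biUnion id).card ≤ Λ) (hNΛ : 4 * (n + 1) * Λ ≤ N) (hN : 0 < N)
    (hp : ∀ s : Finset (Fin N), s.card = n + 1 → LinearIndependent k (fun i : s => p i))
    (hd : ∀ s : Finset (Fin N), s.card = d + 1 →
      ∀ j, ∃ (e : ℕ) (g : Fin N → MvPolynomial (Fin (n + 1)) k), (∀ i, (g i).IsHomogeneous e) ∧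
        y j ^ (e + 1) = ∑ i ∈ s, MvPolynomial.aeval y (g i) * lin (p i) y)
    (hstar : ∀ I : Finset (Fin N), I.Nonempty → I.card ≤ d → ∀ t : ℤ, ∃ j,
      ¬ (m j : ℤ) ∣ ∑ i ∈ I, a i j + t * ∑ i, a i j)
    (hu : u ≠ 0) (hl : ∀ i, lin (p i) y ≠ 0)
    (hrel : ∀ j, ∏ i, (lin (p i) y / u) ^ a i j = β j * z j ^ m j) (i₁ j₁ : Fin (n + 1)) :
    (ht k (y i₁ / y j₁) : ℤ) ≤
      ∑ v ∈ sc, (cp v : ℤ) + 4 * n * ∑ j, 2 * (ht k (β j) : ℤ) := by
  classical
  set C : ℤ := ∑ v ∈ sc, (cp v : ℤ) with hC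
  have hC0 : 0 ≤ C := Finset.sum_nonneg fun v _ => by positivity
  have hT0 : (0 : ℤ) ≤ ∑ i, 2 * (ht k (β i) : ℤ) := Finset.sum_nonneg fun i _ => by positivity
  have hR0 : 0 ≤ C + 4 * n * ∑ i, 2 * (ht k (β i) : ℤ) := by positivity
  have hzero : ht k (0 : E) = 0 := by
    have := ht_const (L := k) (E := E) 0
    rwa [map_zero] at this
  by_cases hy1 : y i₁ = 0
  · rw [hy1, zero_div, hzero]
    simpa using hR0
  by_cases hy2 : y j₁ = 0
  · rw [hy2, div_zero, hzero]
    simpa using hR0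
  have hy : y ≠ 0 := fun h => hy1 (by rw [h]; rfl)
  obtain ⟨α, hα, s₀, hs₀⟩ := exists_isMin (k := k) y hy
  choose s₁ hs₁ using fun I : {I // I ∈ P} => hPI I.1 I.2 α hα
  have hfin : ∀ w : E, ({P : Place k E | P.ord w ≠ 0}).Finite := fun w => finite_support w
  let S : Finset (Place k E) := s₀ ∪ sc ∪ (P.attach.biUnion s₁) ∪
    ((Finset.univ.biUnion fun i => (hfin (lin (p i) y)).toFinset) ∪
      (Finset.univ.biUnion fun j => (hfin (y j)).toFinset))
  have hSc : sc ⊆ S := fun v hv => by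
    simp only [S, Finset.mem_union]; tauto
  have hS1 : ∀ I (hI : I ∈ P), s₁ ⟨I, hI⟩ ⊆ S := by
    intro I hI v hv
    simp only [S, Finset.mem_union, Finset.mem_biUnion]
    exact Or.inl (Or.inr ⟨⟨I, hI⟩, Finset.mem_attach _ _, hv⟩)
  have hSlin : ∀ v ∉ S, ∀ i, v.ord (lin (p i) y) = 0 := by
    intro v hv i
    by_contra hcon
    apply hv
    simp only [S, Finset.mem_union, Finset.mem_biUnion, Finset.mem_univ, true_and,
      Set.Finite.mem_toFinset]
    exact Or.inr (Or.inl ⟨i, hcon⟩)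
  have hSy : ∀ v ∉ S, ∀ j, v.ord (y j) = 0 := by
    intro v hv j
    by_contra hcon
    apply hv
    simp only [S, Finset.mem_union, Finset.mem_biUnion, Finset.mem_univ, true_and,
      Set.Finite.mem_toFinset]
    exact Or.inr (Or.inr ⟨j, hcon⟩)
  set h : ℤ := -∑ v ∈ S, α v with hh
  -- the height is at most `h`
  have hht : (ht k (y i₁ / y j₁) : ℤ) ≤ h := by
    rw [← sum_poles_eq (L := k) (y i₁ / y j₁) S (fun v hv => by
      rw [v.ord_div hy1 hy2, hSy v hv, hSy v hv, sub_zero])]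
    have h1 : ∀ v ∈ S, max 0 (-v.ord (y i₁ / y j₁)) ≤ v.ord (y j₁) - α v := by
      intro v _
      rw [v.ord_div hy1 hy2]
      have h2 := (v.ge_iff hy1).1 ((hα v).1 i₁)
      have h3 := (v.ge_iff hy2).1 ((hα v).1 j₁)
      omega
    refine (Finset.sum_le_sum h1).trans ?_
    rw [Finset.sum_sub_distrib, sum_ord_eq_zero (L := k) (y j₁) S (fun v hv => hSy v hv j₁)]
    rw [hh]; linarith
  refine hht.trans ?_
  have hloc := fun v : Place k E => local_ineq v p y (α v) u a m β z hp hd hstar hu (hα v).1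
    (hα v).2 hl hrel
  have hsum : ∀ i : Fin N, ∑ v ∈ S, (v.ord (lin (p i) y) - α v) = h := by
    intro i
    rw [Finset.sum_sub_distrib,
      sum_ord_eq_zero (L := k) (lin (p i) y) S (fun v hv => hSlin v hv i), hh]
    ring
  have hh0 : 0 ≤ h := by
    rw [← hsum ⟨0, hN⟩]
    exact Finset.sum_nonneg fun v _ => by linarith [(hloc v).1 ⟨0, hN⟩]
  -- bad places
  let bad : Finset (Place k E) := S.filter fun v => ∃ j, v.ord (β j) ≠ 0
  have hbad : ((bad.card : ℕ) : ℤ) ≤ ∑ i, 2 * (ht k (β i) : ℤ) := by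
    have h1 : bad ⊆ Finset.univ.biUnion fun j => S.filter fun v => v.ord (β j) ≠ 0 := by
      intro v hv
      obtain ⟨hvS, j, hj⟩ := Finset.mem_filter.1 hv
      exact Finset.mem_biUnion.2 ⟨j, Finset.mem_univ _, Finset.mem_filter.2 ⟨hvS, hj⟩⟩
    have h2 := (Finset.card_le_card h1).trans Finset.card_biUnion_le
    have h3 : ((bad.card : ℕ) : ℤ) ≤ ∑ j, (((S.filter fun v => v.ord (β j) ≠ 0).card : ℕ) : ℤ) := by
      exact_mod_cast h2
    refine h3.trans (Finset.sum_le_sum fun j _ => PGL.H15.card_support_le (β j) S)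
  have hcount : ∑ v ∈ S, (if v ∈ bad then (1 : ℤ) else 0) = bad.card := by
    rw [← Finset.sum_filter]
    have : S.filter (fun v => v ∈ bad) = bad := by
      ext v
      simp only [Finset.mem_filter]
      exact ⟨fun hv => hv.2, fun hv => ⟨(Finset.mem_filter.1 hv).1, hv⟩⟩
    rw [this]; simp
  set mx : Fin N → ℤ := fun i => ∑ v ∈ S, max 0 (v.ord (lin (p i) y) - α v - 1) with hmx
  have hmx0 : ∀ i, 0 ≤ mx i := fun i => Finset.sum_nonneg fun v _ => le_max_left _ _
  have htot : (N : ℤ) * h ≤ (n + 1) * ∑ i, mx i + n * bad.card := by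
    have h1 : (N : ℤ) * h = ∑ v ∈ S, ∑ i, (v.ord (lin (p i) y) - α v) := by
      rw [Finset.sum_comm, Finset.sum_congr rfl (fun i _ => hsum i), Finset.sum_const,
        Finset.card_univ, Fintype.card_fin, nsmul_eq_mul]
    have h2 : ∑ i, mx i = ∑ v ∈ S, ∑ i, max 0 (v.ord (lin (p i) y) - α v - 1) :=
      Finset.sum_comm
    rw [h1, h2, ← hcount, Finset.mul_sum, Finset.mul_sum, ← Finset.sum_add_distrib]
    refine Finset.sum_le_sum (fun v hv => ?_)
    split_ifs with hvb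
    · rw [mul_one]
      exact (hloc v).2.2
    · rw [mul_zero, add_zero]
      apply (hloc v).2.1
      intro j
      by_contra hcon
      exact hvb (Finset.mem_filter.2 ⟨hv, j, hcon⟩)
  -- the sum over the curves and the remaining forms
  have hsplit : ∑ i, mx i = ∑ I ∈ P, ∑ i ∈ I, mx i + ∑ i ∈ Finset.univ \ P.biUnion id, mx i := by
    rw [← Finset.sum_sdiff (Finset.subset_univ (P.biUnion id)), add_comm]
    congr 1
    rw [Finset.sum_biUnion hP]
    rfl
  have hone : ∀ I ∈ P, ∑ i ∈ I, mx i ≤ 2 * (Bf I : ℤ) * h + (Bf I : ℤ) * C := by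
    intro I hI
    have h1 := hs₁ ⟨I, hI⟩ S (hS1 I hI) hSc
    rw [Finset.sum_comm] at h1
    exact h1
  have hrest : ∑ i ∈ Finset.univ \ P.biUnion id, mx i ≤ (Λ : ℤ) * h := by
    have h1 : ∀ i ∈ Finset.univ \ P.biUnion id, mx i ≤ h := by
      intro i _
      rw [← hsum i]
      refine Finset.sum_le_sum (fun v _ => ?_)
      have := (hloc v).1 i
      omega
    refine (Finset.sum_le_sum h1).trans ?_
    rw [Finset.sum_const, nsmul_eq_mul]
    exact mul_le_mul_of_nonneg_right (by exact_mod_cast hΛ) hh0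
  set B : ℤ := ∑ I ∈ P, (Bf I : ℤ) with hB
  have hB0 : 0 ≤ B := Finset.sum_nonneg fun I _ => by positivity
  have hPsum : ∑ I ∈ P, ∑ i ∈ I, mx i ≤ 2 * B * h + B * C := by
    refine (Finset.sum_le_sum hone).trans (le_of_eq ?_)
    rw [Finset.sum_add_distrib, ← Finset.sum_mul, ← Finset.sum_mul, ← Finset.mul_sum]
  have hBN : 4 * ((n : ℤ) + 1) * B ≤ N := by
    have h1 : ∑ I ∈ P, I.card = (P.biUnion id).card := by
      rw [Finset.card_biUnion (fun I hI J hJ hIJ => hP hI hJ hIJ)]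
      rfl
    have h2 : (P.biUnion id).card ≤ N := by
      have := Finset.card_le_univ (P.biUnion id)
      rwa [Fintype.card_fin] at this
    have h3 : ∑ I ∈ P, 4 * (n + 1) * Bf I ≤ ∑ I ∈ P, I.card := Finset.sum_le_sum hPB
    rw [← Finset.mul_sum] at h3
    have h4 : 4 * (n + 1) * ∑ I ∈ P, Bf I ≤ N := by omega
    rw [hB]
    exact_mod_cast h4
  have hΛN : 4 * ((n : ℤ) + 1) * Λ ≤ N := by exact_mod_cast hNΛ
  have hn0 : (0 : ℤ) ≤ n := by positivity
  have hbad0 : (0 : ℤ) ≤ bad.card := by positivity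
  have e1 : 4 * ((N : ℤ) * h) ≤ 2 * (N * h) + N * C + N * h + 4 * n * bad.card := by
    have e2 : (N : ℤ) * h ≤ (n + 1) * (2 * B * h + B * C + Λ * h) + n * bad.card := by
      refine htot.trans ?_
      rw [hsplit]
      have := mul_le_mul_of_nonneg_left (add_le_add hPsum hrest) (show (0 : ℤ) ≤ n + 1 by omega)
      linarith
    have e3 : (4 * ((n : ℤ) + 1) * B) * h ≤ N * h := mul_le_mul_of_nonneg_right hBN hh0
    have e4 : (4 * ((n : ℤ) + 1) * B) * C ≤ N * C := mul_le_mul_of_nonneg_right hBN hC0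
    have e5 : (4 * ((n : ℤ) + 1) * Λ) * h ≤ N * h := mul_le_mul_of_nonneg_right hΛN hh0
    nlinarith
  have e6 : (N : ℤ) * h ≤ N * (C + 4 * n * bad.card) := by
    have hN1 : (1 : ℤ) ≤ N := by exact_mod_cast hN
    have e7 : 4 * (n : ℤ) * bad.card ≤ N * (4 * n * bad.card) :=
      le_mul_of_one_le_left (by positivity) hN1
    linarith
  have e8 : h ≤ C + 4 * n * bad.card :=
    le_of_mul_le_mul_left e6 (by exact_mod_cast hN)
  refine e8.trans ?_
  have e9 : 4 * (n : ℤ) * bad.card ≤ 4 * n * ∑ i, 2 * (ht k (β i) : ℤ) :=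
    mul_le_mul_of_nonneg_left hbad (by positivity)
  linarith

end

end PGL.H87
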