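import Mathlib
import Pool.Agent.Helper87_PGL.HbC
import Pool.Agent.Helper11_PGL.StepG

/-!
# The data of a cover step give good elements
-/

set_option autoImplicit false

open PGH Polynomial
open scoped IntermediateField

universe u

namespace PGL.H87

section values

variable {k M E : Type u} [Field k] [Field M] [Algebra k M] [Field E] [Algebra k E]

theorem ev_inv {S : Subalgebra k M} (φ : S →ₐ[k] E) {x : M} (hx : x ∈ S) (hx' : x⁻¹ ∈ S)
    (h0 : x ≠ 0) : ev φ x⁻¹ = (ev φ x)⁻¹ := by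
  have h1 := ev_mul φ hx hx'
  rw [mul_inv_cancel₀ h0, ev_one] at h1
  exact (inv_eq_of_mul_eq_one_right h1.symm).symm

theorem ev_zpow {S : Subalgebra k M} (φ : S →ₐ[k] E) {x : M} (hx : x ∈ S) (hx' : x⁻¹ ∈ S)
    (h0 : x ≠ 0) (e : ℤ) : x ^ e ∈ S ∧ ev φ (x ^ e) = ev φ x ^ e := by
  obtain ⟨n, rfl | rfl⟩ := e.eq_nat_or_neg
  · rw [zpow_natCast, zpow_natCast]
    exact ⟨pow_mem hx n, ev_pow φ hx n⟩
  · rw [zpow_neg, zpow_neg, zpow_natCast, zpow_natCast, ← inv_pow, ← inv_pow,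
      ← ev_inv φ hx hx' h0]
    exact ⟨pow_mem hx' n, ev_pow φ hx' n⟩

theorem ev_prod {S : Subalgebra k M} (φ : S →ₐ[k] E) {ι : Type*} (s : Finset ι) (f : ι → M)
    (hf : ∀ i ∈ s, f i ∈ S) : ev φ (∏ i ∈ s, f i) = ∏ i ∈ s, ev φ (f i) := by
  classical
  induction s using Finset.induction_on with
  | empty => rw [Finset.prod_empty, Finset.prod_empty, ev_one]
  | insert i s hi ih =>
    rw [Finset.prod_insert hi, Finset.prod_insert hi, ev_mul φ (hf i (Finset.mem_insert_self _ _))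
      (prod_mem (fun j hj => hf j (Finset.mem_insert_of_mem hj))),
      ih (fun j hj => hf j (Finset.mem_insert_of_mem hj))]

theorem ev_aeval {S : Subalgebra k M} (φ : S →ₐ[k] E) {n : ℕ} (y : Fin n → M)
    (hy : ∀ j, y j ∈ S) (g : MvPolynomial (Fin n) k) :
    MvPolynomial.aeval y g ∈ S ∧
      ev φ (MvPolynomial.aeval y g) = MvPolynomial.aeval (fun j => ev φ (y j)) g := by
  let yS : Fin n → S := fun j => ⟨y j, hy j⟩
  have h1 : ((MvPolynomial.aeval yS g : S) : M) = MvPolynomial.aeval y g :=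
    MvPolynomial.comp_aeval_apply yS S.val g
  have h2 : φ (MvPolynomial.aeval yS g) = MvPolynomial.aeval (fun j => φ (yS j)) g :=
    MvPolynomial.comp_aeval_apply yS φ g
  constructor
  · rw [← h1]; exact Subtype.property _
  · have h3 : (fun j => ev φ (y j)) = fun j => φ (yS j) := funext fun j => ev_mem φ (hy j)
    rw [← h1, ev_coe, h2, h3]

end values

/-- STEPC: the data of a cover step give good elements -/
def StepCStmt : Prop :=
  ∀ (n : ℕ), ∃ N₀ : ℕ, ∀ (k M V : Type u) [Field k] [Field M] [Algebra k M] [IsAlgClosed k]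
    [CharZero k] [Field V] [Algebra k V] [Algebra V M] [IsScalarTower k V M] (F₀ : Set M)
    (W : Set (AddValuation V (WithTop ℤ))) (d N r : ℕ) (y : Fin (n + 1) → V)
    (L : Fin N → Fin (n + 1) → k) (x : M) (a : Fin N → Fin r → ℤ) (m : Fin r → ℕ)
    (b z : Fin r → M), N₀ ≤ N →
    (∀ w ∈ W, ∀ c : k, c ≠ 0 → w (algebraMap k V c) = 0) →
    (∀ x : V, (∀ w ∈ W, 0 ≤ w x) → ∃ c : k, algebraMap k V c = x) →
    (∀ s : Finset (Fin N), s.card = n + 1 → LinearIndependent k (fun i : s => L i)) →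
    (∀ i, lin (L i) y ≠ 0) → x ≠ 0 →
    (∀ w ∈ W, ∀ i j, w (lin (L i) y) ≤ 1 + w (y j)) →
    (∀ s : Finset (Fin N), s.card = d + 1 → ∀ j, ∃ (e : ℕ)
      (g : Fin N → MvPolynomial (Fin (n + 1)) k), (∀ i, (g i).IsHomogeneous e) ∧
      algebraMap V M (y j) ^ (e + 1) =
        ∑ i ∈ s, MvPolynomial.aeval (fun l => algebraMap V M (y l)) (g i) *
          algebraMap V M (lin (L i) y)) →
    (∀ j, GoodEl2 k F₀ (b j) ∧
      ∏ i, (algebraMap V M (lin (L i) y) / x) ^ a i j = b j * z j ^ m j) →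
    (∀ I : Finset (Fin N), I.Nonempty → I.card ≤ d → ∀ t : ℤ, ∃ j,
      ¬ (m j : ℤ) ∣ ∑ i ∈ I, a i j + t * ∑ i, a i j) →
    ∀ i j, GoodEl2 k F₀ (algebraMap V M (y i) / algebraMap V M (y j))

theorem stepC_stmt (hC : CurveStmt.{u}) (hK : KIneqStmt.{u}) (hS : SqStmt.{u})
    (hCert : CertStmt.{u}) (hD : DRatStmt.{u}) : StepCStmt.{u} := by
  classical
  intro n
  obtain ⟨Λ, hΛ⟩ := partition hC n (4 * (n + 1))
  refine ⟨4 * (n + 1) * Λ + 1, ?_⟩
  intro k M V _ _ _ _ _ _ _ _ _ F₀ W d N r y L x a m b z hN hW hWc hind hlin0 hx0 hred hpow hval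
    hstar i j
  have hN0 : 0 < N := by omega
  obtain ⟨P, hP1, hP2, hP3⟩ := hΛ k N L hind
  have hy0 : y ≠ 0 := by
    rintro rfl
    apply hlin0 ⟨0, hN0⟩
    unfold lin
    simp
  have hL0 : ∀ i, L i ≠ 0 := by
    intro i h
    apply hlin0 i
    unfold lin
    rw [h]
    simp
  -- the curves
  have hcurve : ∀ I ∈ P, ∃ (B : ℕ) (Tc : Set M), 4 * (n + 1) * B ≤ I.card ∧ Tc.Finite ∧
      ∀ (E : Type u) [Field E] [Algebra k E] [FF k E] (D : Derivation ℤ E E)
        (cp : Place k E → ℕ) (sc : Finset (Place k E)),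
        (∀ c : k, D (algebraMap k E c) = 0) → (∀ w : E, D w = 0 → ∃ c : k, algebraMap k E c = w) →
        (∀ v : Place k E, DGe v D (-(cp v : ℤ))) → (∀ v ∉ sc, cp v = 0) →
        ∀ (S : Subalgebra k M), Tc ⊆ (S : Set M) → ∀ φ : S →ₐ[k] E,
        (∀ i, lin (L i) (fun j => ev φ (algebraMap V M (y j))) ≠ 0) →
        (fun j => ev φ (algebraMap V M (y j))) ≠ 0 →
        CurveIneq L (fun j => ev φ (algebraMap V M (y j))) cp sc I B := by
    intro I hI
    obtain ⟨R, _, _, _, f, b', Q, lam, hf, hpol, hcard, hinj, hQ⟩ := hP2 I hI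
    have hI0 : I.Nonempty := by
      rw [← Finset.card_pos]
      omega
    obtain ⟨i₀, hi₀⟩ := hI0
    obtain ⟨t, htr⟩ := FF.exists_transcendental (L := k) (E := R)
    obtain ⟨del, hdel⟩ := exists_deriv k R htr
    have hdel0 : del ≠ 0 := by
      rintro rfl
      exact zero_ne_one hdel
    have hcop := hS k V R W (Q i₀) n f y (lam i₀) (L i₀) del hW hWc hf (hL0 i₀) (hQ i₀ hi₀)
      (fun w hw j => hred w hw i₀ j) hy0 hdel0
    obtain ⟨Tc, hTc, hcert⟩ := hCert k V M R n f (fun s => del (f s)) y hcop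
    refine ⟨Multiset.card b', Tc, hcard.le, hTc, ?_⟩
    intro E _ _ _ D cp sc hDk hDc hcp hsc S hTS φ hl hy
    exact curveIneq hK f b' I Q lam L _ D del cp sc hf hpol hinj hQ hDk hDc hcp hsc hdel0
      (hcert S hTS E φ) hl hy
  choose! Bf Tc hB hTc hcineq using hcurve
  choose Tb hTb hbT hbB hbR using fun i => (hval i).1
  set T0 : Set M := (⋃ i, Tb i) ∪ ((⋃ I ∈ P, Tc I) ∪ (Set.range (fun j => algebraMap V M (y j)) ∪
    Set.range (fun j => (algebraMap V M (y j))⁻¹) ∪ {x, x⁻¹} ∪ Set.range z ∪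
    Set.range (fun i => (algebraMap V M (lin (L i) y))⁻¹) ∪
    {algebraMap V M (y i) / algebraMap V M (y j)})) with hT0
  have hT0f : T0.Finite := by
    apply Set.Finite.union
    · exact Set.finite_iUnion (fun i => hTb i)
    · apply Set.Finite.union
      · exact P.finite_toSet.biUnion (fun I hI => hTc I hI)
      · exact (((((Set.finite_range _).union (Set.finite_range _)).union
          (Set.toFinite _)).union (Set.finite_range _)).union (Set.finite_range _)).union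
          (Set.finite_singleton _)
  have hsub : ∀ i, Tb i ⊆ T0 := fun i => (Set.subset_iUnion Tb i).trans Set.subset_union_left
  have hTcs : ∀ I ∈ P, Tc I ⊆ T0 := fun I hI t ht => Or.inr (Or.inl (Set.mem_biUnion hI ht))
  have hyT : ∀ j, algebraMap V M (y j) ∈ T0 := fun j =>
    Or.inr (Or.inr (Or.inl (Or.inl (Or.inl (Or.inl (Or.inl ⟨j, rfl⟩))))))
  have hyiT : ∀ j, (algebraMap V M (y j))⁻¹ ∈ T0 := fun j =>
    Or.inr (Or.inr (Or.inl (Or.inl (Or.inl (Or.inl (Or.inr ⟨j, rfl⟩))))))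
  have hxT : x ∈ T0 := Or.inr (Or.inr (Or.inl (Or.inl (Or.inl (Or.inr (Or.inl rfl))))))
  have hxiT : x⁻¹ ∈ T0 := Or.inr (Or.inr (Or.inl (Or.inl (Or.inl (Or.inr (Or.inr rfl))))))
  have hzT : ∀ i, z i ∈ T0 := fun i => Or.inr (Or.inr (Or.inl (Or.inl (Or.inr ⟨i, rfl⟩))))
  have hliT : ∀ i, (algebraMap V M (lin (L i) y))⁻¹ ∈ T0 := fun i =>
    Or.inr (Or.inr (Or.inl (Or.inr ⟨i, rfl⟩)))
  have hqT : algebraMap V M (y i) / algebraMap V M (y j) ∈ T0 :=
    Or.inr (Or.inr (Or.inr rfl))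
  -- the common part of both estimates
  have key : ∀ (E : Type u) [Field E] [Algebra k E] [FF k E] (D : Derivation ℤ E E)
      (cp : Place k E → ℕ) (sc : Finset (Place k E)),
      (∀ c : k, D (algebraMap k E c) = 0) → (∀ w : E, D w = 0 → ∃ c : k, algebraMap k E c = w) →
      (∀ v : Place k E, DGe v D (-(cp v : ℤ))) → (∀ v ∉ sc, cp v = 0) →
      ∀ (S : Subalgebra k M), T0 ⊆ (S : Set M) → ∀ φ : S →ₐ[k] E,
      (ht k (ev φ (algebraMap V M (y i) / algebraMap V M (y j))) : ℤ) ≤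
        ∑ v ∈ sc, (cp v : ℤ) + 4 * n * ∑ i, 2 * (ht k (ev φ (b i)) : ℤ) := by
    intro E _ _ _ D cp sc hDk hDc hcp hsc S hTS φ
    have hyS : ∀ j, algebraMap V M (y j) ∈ S := fun j => hTS (hyT j)
    have h1 := fun i => lin_ev φ y hyS (L i)
    have hbS : ∀ i, b i ∈ S := fun i => hTS (hsub i (hbT i))
    have hzS : ∀ i, z i ∈ S := fun i => hTS (hzT i)
    have hxS : x ∈ S := hTS hxT
    have hxiS : x⁻¹ ∈ S := hTS hxiT
    have hlM0 : ∀ i, algebraMap V M (lin (L i) y) ≠ 0 := by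
      intro i
      rw [Ne, map_eq_zero]
      exact hlin0 i
    have hne : ∀ i, lin (L i) (fun j => ev φ (algebraMap V M (y j))) ≠ 0 := by
      intro i
      rw [(h1 i).2]
      exact ev_ne_zero φ (h1 i).1 (hTS (hliT i)) (hlM0 i)
    have hyE : (fun j => ev φ (algebraMap V M (y j))) ≠ 0 := by
      intro h
      apply hne ⟨0, hN0⟩
      rw [h]
      unfold lin
      simp
    have hxE : ev φ x ≠ 0 := ev_ne_zero φ hxS hxiS hx0
    have hqS : ∀ i, algebraMap V M (lin (L i) y) / x ∈ S := fun i => by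
      rw [div_eq_mul_inv]
      exact mul_mem (h1 i).1 hxiS
    have hqiS : ∀ i, (algebraMap V M (lin (L i) y) / x)⁻¹ ∈ S := fun i => by
      rw [inv_div, div_eq_mul_inv]
      exact mul_mem hxS (hTS (hliT i))
    have hq0 : ∀ i, algebraMap V M (lin (L i) y) / x ≠ 0 := fun i =>
      div_ne_zero (hlM0 i) hx0
    have hqE : ∀ i, ev φ (algebraMap V M (lin (L i) y) / x) =
        lin (L i) (fun j => ev φ (algebraMap V M (y j))) / ev φ x := by
      intro i
      rw [div_eq_mul_inv, ev_mul φ (h1 i).1 hxiS, ev_inv φ hxS hxiS hx0, (h1 i).2, div_eq_mul_inv]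
    have hrel : ∀ j', ∏ i, (lin (L i) (fun j => ev φ (algebraMap V M (y j))) / ev φ x) ^ a i j' =
        ev φ (b j') * ev φ (z j') ^ m j' := by
      intro j'
      rw [← ev_pow φ (hzS j'), ← ev_mul φ (hbS j') (pow_mem (hzS j') _), ← (hval j').2,
        ev_prod φ _ _ (fun i _ => (ev_zpow φ (hqS i) (hqiS i) (hq0 i) _).1)]
      refine Finset.prod_congr rfl (fun i _ => ?_)
      rw [(ev_zpow φ (hqS i) (hqiS i) (hq0 i) _).2, hqE]
    have hpowE : ∀ s : Finset (Fin N), s.card = d + 1 → ∀ j, ∃ (e : ℕ)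
        (g : Fin N → MvPolynomial (Fin (n + 1)) k), (∀ i, (g i).IsHomogeneous e) ∧
        (fun j => ev φ (algebraMap V M (y j))) j ^ (e + 1) =
          ∑ i ∈ s, MvPolynomial.aeval (fun j => ev φ (algebraMap V M (y j))) (g i) *
            lin (L i) (fun j => ev φ (algebraMap V M (y j))) := by
      intro s hs j'
      obtain ⟨e, g, hg, hge⟩ := hpow s hs j'
      refine ⟨e, g, hg, ?_⟩
      have h3 := fun i => ev_aeval φ (fun l => algebraMap V M (y l)) hyS (g i)
      dsimp only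
      rw [← ev_pow φ (hyS j'), hge, ev_sum φ _ _ (fun i _ => mul_mem (h3 i).1 (h1 i).1)]
      refine Finset.sum_congr rfl (fun i _ => ?_)
      rw [ev_mul φ (h3 i).1 (h1 i).1, (h3 i).2, (h1 i).2]
    have hfin := hbC P Bf L (fun j => ev φ (algebraMap V M (y j))) (ev φ x) a m
      (fun i => ev φ (b i)) (fun i => ev φ (z i)) cp sc hP1 hB
      (fun I hI => hcineq I hI E D cp sc hDk hDc hcp hsc S ((hTcs I hI).trans hTS) φ hne hyE)
      hP3 (by omega) hN0 hind hpowE hstar hxE hne hrel i j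
    have hdiv : ev φ (algebraMap V M (y i) / algebraMap V M (y j)) =
        ev φ (algebraMap V M (y i)) / ev φ (algebraMap V M (y j)) := by
      by_cases h0 : algebraMap V M (y j) = 0
      · rw [h0, div_zero, ev_zero, div_zero]
      · have h2 : ev φ (algebraMap V M (y j)) ≠ 0 := ev_ne_zero φ (hyS j) (hTS (hyiT j)) h0
        rw [eq_div_iff h2, ← ev_mul φ (hTS hqT) (hyS j), div_mul_cancel₀ _ h0]
    rw [hdiv]
    exact hfin
  refine ⟨T0, hT0f, hqT, ?_, ?_⟩
  · intro E _ _ _ ψ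
    have hch : CharZero E := charZero_of_injective_algebraMap (algebraMap k E).injective
    obtain ⟨t, htr⟩ := FF.exists_transcendental (L := k) (E := E)
    obtain ⟨δ, hδ⟩ := exists_deriv k E htr
    let D : Derivation ℤ E E := δ.restrictScalars ℤ
    have hDk : ∀ c : k, D (algebraMap k E c) = 0 := fun c => δ.map_algebraMap c
    have hPL : PresL k D := fun c => ⟨0, by rw [hDk, map_zero]⟩
    have hDt : D t ≠ 0 := by
      change δ t ≠ 0
      rw [hδ]; exact one_ne_zero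
    have hconst : ∀ w, D w = 0 → ∃ c : k, algebraMap k E c = w := by
      intro w hw
      apply not_transcendental
      intro hwt
      have hal := FF.isAlgebraic hwt
      exact hDt (deriv_zero_of_isAlgebraic_adjoin (AlgHom.id k E) D hDk hw (hal.isAlgebraic t))
    obtain ⟨cp, sc, hsc, hcp⟩ := bounded_poles (L := k) D hPL
    choose Bd hBd using fun i => hbB i E ψ
    refine ⟨(∑ v ∈ sc, (cp v : ℤ) + 4 * n * ∑ i, 2 * (Bd i : ℤ)).toNat, fun S hTS φ hψ => ?_⟩
    have h1 := key E D cp sc hDk hconst hcp hsc S hTS φ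
    have h2 : ∑ i, 2 * (ht k (ev φ (b i)) : ℤ) ≤ ∑ i, 2 * (Bd i : ℤ) := by
      apply Finset.sum_le_sum
      intro i _
      have := hBd i S ((hsub i).trans hTS) φ (fun t ht => hψ t (hsub i ht))
      omega
    have h3 : 4 * (n : ℤ) * ∑ i, 2 * (ht k (ev φ (b i)) : ℤ) ≤ 4 * n * ∑ i, 2 * (Bd i : ℤ) :=
      mul_le_mul_of_nonneg_left h2 (by positivity)
    omega
  · intro E _ _ z' hz' htop S hTS φ hF
    obtain ⟨hFF, D, hDk, hDc, hDg⟩ := hD k E z' hz' htop
    have h1 := key E D (fun _ => 0) ∅ hDk hDc (fun v => by simpa using hDg v) (fun _ _ => rfl) S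
      hTS φ
    have h2 : ∀ i, ht k (ev φ (b i)) = 0 := by
      intro i
      obtain ⟨c, hc⟩ := hbR i E z' hz' htop S ((hsub i).trans hTS) φ
        (fun t ht ht0 => hF t (hsub i ht) ht0)
      rw [hc, ht_const]
    simp only [h2] at h1
    simp only [mul_zero, Nat.cast_zero, Finset.sum_const_zero, add_zero] at h1
    obtain ⟨c, hc⟩ := ht_eq_zero_iff (k := k)
      (w := ev φ (algebraMap V M (y i) / algebraMap V M (y j))) (by omega)
    exact ⟨c, hc⟩

end PGL.H87
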