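import Mathlib

/-!
# Definition of the cover steps
-/

namespace PGL

/-- A cover step from the subfield `F` to the subfield `F'` of `M`, relative to the field of
constants `K`.  Here `V` is a subfield of `M` which contains `K`, with a set `W` of (additive)
valuations with values in `ℤ ∪ {∞}`, trivial on `K` and such that an element of `V` at which all of
them are nonnegative is in `K` (for instance the function field of a normal projective variety and
the orders of vanishing along its prime divisors); `y 0, …, y n` are elements of `V` and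
`L 0, …, L (N - 1)` are linear forms with coefficients in `K`, any `n + 1` of them linearly
independent, with nonzero values `L i y`, where `N` is at least `N₀ n`.

* Reduced members: for `w` in `W`, the value of `L i y` exceeds the minimum of the values of the
  `y j` by at most one.
* At most `d` of the members `L i y = 0` have a common point: if `s` has `d + 1` elements, some
  power of every `y j` is in the ideal generated by the `L i y` with `i` in `s`, homogeneously
  (for `d = n` this follows from linear independence).
* The products of the powers `(L i y / u) ^ a i j` are of the form `b j * z j ^ m j` with `b j` in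
  `F`, and no transversal arc lifts: if `I` is a nonempty set of at most `d` indices and `t` is an
  integer, then some `m j` does not divide the sum of the `a i j`, `i` in `I`, plus `t` times the
  sum of all `a i j`.
* The field `F'` contains `F` and is algebraic over the field generated by `F` and the ratios
  `y i / y j`. -/
structure CovStep {M : Type*} [Field M] (N₀ : ℕ → ℕ) (K F F' : Subfield M) : Prop where
  le : F ≤ F'
  step : ∃ (V : Subfield M) (W : Set (AddValuation V (WithTop ℤ))) (n d N r : ℕ)
    (y : Fin (n + 1) → V) (L : Fin N → Fin (n + 1) → V) (u : M) (a : Fin N → Fin r → ℤ)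
    (m : Fin r → ℕ) (b z : Fin r → M),
    N₀ n ≤ N ∧ K ≤ V ∧
    (∀ w ∈ W, ∀ c : V, (c : M) ∈ K → c ≠ 0 → w c = 0) ∧
    (∀ x : V, (∀ w ∈ W, 0 ≤ w x) → (x : M) ∈ K) ∧
    (∀ i j, (L i j : M) ∈ K) ∧
    (∀ s : Finset (Fin N), s.card = n + 1 → LinearIndependent V (fun i : s => L i)) ∧
    (∀ i, ∑ l, L i l * y l ≠ 0) ∧ u ≠ 0 ∧
    (∀ w ∈ W, ∀ i j, w (∑ l, L i l * y l) ≤ 1 + w (y j)) ∧
    (∀ s : Finset (Fin N), s.card = d + 1 → ∀ j, ∃ (e : ℕ)
      (g : Fin N → MvPolynomial (Fin (n + 1)) K), (∀ i, (g i).IsHomogeneous e) ∧
      (y j : M) ^ (e + 1) = ∑ i ∈ s, MvPolynomial.aeval (fun l => (y l : M)) (g i) *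
        ((∑ l, L i l * y l : V) : M)) ∧
    (∀ j, b j ∈ F ∧ ∏ i, (((∑ l, L i l * y l : V) : M) / u) ^ a i j = b j * z j ^ m j) ∧
    (∀ I : Finset (Fin N), I.Nonempty → I.card ≤ d → ∀ t : ℤ, ∃ j,
      ¬ (m j : ℤ) ∣ ∑ i ∈ I, a i j + t * ∑ i, a i j) ∧
    ∀ x ∈ F', IsAlgebraic
      (Subfield.closure ((F : Set M) ∪ {x | ∃ i j, x = (y i : M) / (y j : M)})) x

end PGL
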