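import Mathlib
import Pool.Agent.Helper87_PGL.CovDefs
import Pool.Agent.Helper11_PGL.Hyper

/-!
# The cover steps given by hyperplanes
-/

set_option autoImplicit false

open PGH

universe u

namespace PGL.H87

open PGL.H11

/-- a coordinate is a combination of `n + 1` independent forms -/
theorem exists_comb {k : Type*} [Field k] {n N : ℕ} (L : Fin N → Fin (n + 1) → k)
    (s : Finset (Fin N)) (hs : s.card = n + 1) (hli : LinearIndependent k (fun i : s => L i))
    (j : Fin (n + 1)) : ∃ c : Fin N → k, ∀ l, (if l = j then (1 : k) else 0) =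
      ∑ i ∈ s, c i * L i l := by
  classical
  have hspan : Submodule.span k (Set.range (fun i : s => L i)) = ⊤ := by
    apply hli.span_eq_top_of_card_eq_finrank'
    simp [hs]
  have h1 : (fun l => if l = j then (1 : k) else 0) ∈
      Submodule.span k (Set.range (fun i : s => L i)) := by
    rw [hspan]; trivial
  obtain ⟨c, hc⟩ := (Submodule.mem_span_range_iff_exists_fun k).1 h1
  refine ⟨fun i => if h : i ∈ s then c ⟨i, h⟩ else 0, fun l => ?_⟩
  have h2 := congrFun hc l
  rw [← h2, Finset.sum_apply, ← Finset.sum_coe_sort s]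
  refine Finset.sum_congr rfl (fun i _ => ?_)
  change (c i • L ↑i) l = (if h : (↑i : Fin N) ∈ s then c ⟨↑i, h⟩ else 0) * L ↑i l
  rw [dif_pos i.2]
  rfl

theorem hyperC_core {k M : Type u} [Field k] [Field M] [Algebra k M] (N₀ : ℕ → ℕ)
    (F F' : Subfield M) {n N r : ℕ} (x : Fin n → M) (L : Fin N → Fin (n + 1) → k) (u : M)
    (a : Fin N → Fin r → ℤ) (m : Fin r → ℕ) (b z : Fin r → M) (hFF' : F ≤ F') (hN : N₀ n ≤ N)
    (hnN : n < N) (hu : u ≠ 0)
    (hL : ∀ s : Finset (Fin N), s.card = n + 1 → LinearIndependent k (fun i : s => L i))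
    (hval : ∀ j, b j ∈ F ∧ ∏ i, ((algebraMap k M (L i 0) +
      ∑ l : Fin n, algebraMap k M (L i l.succ) * x l) / u) ^ a i j = b j * z j ^ m j)
    (hstar : ∀ I : Finset (Fin N), I.Nonempty → I.card ≤ n → ∀ t : ℤ, ∃ j,
      ¬ (m j : ℤ) ∣ ∑ i ∈ I, a i j + t * ∑ i, a i j)
    (halg : ∀ a ∈ F', IsAlgebraic (Subfield.closure ((F : Set M) ∪ Set.range x)) a)
    (V : Subfield M) [Algebra (MvPolynomial (Fin n) k) V]
    [IsFractionRing (MvPolynomial (Fin n) k) V] (hkV : ∀ c : k, algebraMap k M c ∈ V)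
    (hcoe : ∀ a, ((algebraMap (MvPolynomial (Fin n) k) V a : V) : M) = MvPolynomial.aeval x a) :
    CovStep N₀ (algebraMap k M).fieldRange F F' := by
  classical
  set ψ : MvPolynomial (Fin n) k →+* V := algebraMap (MvPolynomial (Fin n) k) V with hψdef
  have hψ : Function.Injective ψ := IsFractionRing.injective _ _
  have hL0 : ∀ i, L i ≠ 0 := by
    intro i
    obtain ⟨s, his, hs⟩ : ∃ s : Finset (Fin N), i ∈ s ∧ s.card = n + 1 := by
      obtain ⟨s, h1, h2⟩ := Finset.exists_superset_card_eq (s := {i}) (n := n + 1) (by simp)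
        (by simp; omega)
      exact ⟨s, h1 (Finset.mem_singleton_self i), h2⟩
    exact (hL s hs).ne_zero ⟨i, his⟩
  have hsum : ∀ i, ∑ l, ψ (MvPolynomial.C (L i l)) * ψ (affY l) = ψ (linPoly (L i)) := by
    intro i
    rw [linPoly_eq, map_sum]
    exact Finset.sum_congr rfl (fun l _ => (map_mul _ _ _).symm)
  have hK : ∀ c : k, ((ψ (MvPolynomial.C c) : V) : M) = algebraMap k M c := fun c => by
    rw [hcoe, MvPolynomial.aeval_C]
  refine ⟨hFF', V, HW k n V, n, n, N, r, fun j => ψ (affY j), fun i l => ψ (MvPolynomial.C (L i l)),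
    u, a, m, b, z, hN, ?_, ?_, ?_, ?_, ?_, ?_, hu, ?_, ?_, ?_, hstar, ?_⟩
  · rintro _ ⟨c, rfl⟩
    exact hkV c
  · rintro w hw c ⟨c', hc'⟩ hc0
    have h1 : c = ψ (MvPolynomial.C c') := by
      apply Subtype.ext
      rw [hK, hc']
    have h2 : c' ≠ 0 := by
      rintro rfl
      apply hc0
      rw [h1, map_zero, map_zero]
    rw [h1]
    exact hw_const hw h2
  · intro a ha
    obtain ⟨c, hc⟩ := hw_regular (k := k) (n := n) a ha
    refine ⟨c, ?_⟩
    rw [← hK, hψdef, hc]
  · intro i l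
    exact ⟨L i l, (hK _).symm⟩
  · intro s hs
    exact linearIndependent_map (ψ.comp MvPolynomial.C) (by rw [Fintype.card_coe, hs])
      (fun i : s => L i) (hL s hs)
  · intro i h0
    rw [hsum] at h0
    exact linPoly_ne_zero (hL0 i) (hψ (by rw [h0, map_zero]))
  · intro w hw i j
    rw [hsum]
    exact hw_linear hw (linPoly_ne_zero (hL0 i)) (linPoly_degree _) (affY_degree j)
  · intro s hs j
    obtain ⟨c, hc⟩ := exists_comb L s hs (hL s hs) j
    refine ⟨0, fun i => MvPolynomial.C ⟨algebraMap k M (c i), ⟨c i, rfl⟩⟩,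
      fun i => MvPolynomial.isHomogeneous_C _ _, ?_⟩
    rw [zero_add, pow_one]
    have h1 : (ψ (affY j) : V) = ∑ i ∈ s, ψ (MvPolynomial.C (c i)) *
        ∑ l, ψ (MvPolynomial.C (L i l)) * ψ (affY l) := by
      have h2 : ∀ i, ψ (MvPolynomial.C (c i)) * ∑ l, ψ (MvPolynomial.C (L i l)) * ψ (affY l) =
          ∑ l, ψ (MvPolynomial.C (c i * L i l)) * ψ (affY l) := by
        intro i
        rw [Finset.mul_sum]
        refine Finset.sum_congr rfl (fun l _ => ?_)
        rw [← mul_assoc, MvPolynomial.C_mul, map_mul]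
      rw [Finset.sum_congr rfl (fun i _ => h2 i), Finset.sum_comm]
      have h3 : ∀ l, ∑ i ∈ s, ψ (MvPolynomial.C (c i * L i l)) * ψ (affY l) =
          (if l = j then ψ (affY l) else 0) := by
        intro l
        rw [← Finset.sum_mul, ← map_sum, ← map_sum, ← hc l]
        split_ifs
        · rw [map_one, map_one, one_mul]
        · rw [map_zero, map_zero, zero_mul]
      rw [Finset.sum_congr rfl (fun l _ => h3 l)]
      simp
    have h4 : ((ψ (affY j) : V) : M) = ((∑ i ∈ s, ψ (MvPolynomial.C (c i)) *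
        ∑ l, ψ (MvPolynomial.C (L i l)) * ψ (affY l) : V) : M) := congrArg Subtype.val h1
    rw [h4, AddSubmonoidClass.coe_finset_sum]
    refine Finset.sum_congr rfl (fun i _ => ?_)
    rw [MvPolynomial.aeval_C]
    change ((ψ (MvPolynomial.C (c i)) : V) : M) * _ = algebraMap k M (c i) * _
    rw [hK]
  · intro j
    refine ⟨(hval j).1, ?_⟩
    rw [← (hval j).2]
    refine Finset.prod_congr rfl (fun i _ => ?_)
    rw [hsum, hcoe]
    simp only [linPoly, map_add, map_sum, map_mul, MvPolynomial.aeval_C, MvPolynomial.aeval_X]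
  · intro a ha
    refine isAlgebraic_mono (Subfield.closure_mono ?_) (halg a ha)
    rintro y (hy | ⟨l, rfl⟩)
    · exact Or.inl hy
    · right
      refine ⟨l.succ, 0, ?_⟩
      rw [hcoe, hcoe, affY_succ, affY_zero, MvPolynomial.aeval_X, map_one, div_one]

end PGL.H87
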