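import Mathlib
import Pool.Agent.Helper87_PGL.StepC
import Pool.Agent.Helper87_PGL.CovDefs

/-!
# A cover step preserves good elements
-/

set_option autoImplicit false

open PGH Polynomial

universe u

namespace PGL.H87

/-- a cover step preserves good elements -/
def StepMStmt : Prop :=
  ∃ N₀ : ℕ → ℕ, ∀ (k M : Type u) [Field k] [Field M] [Algebra k M] [IsAlgClosed k] [CharZero k]
    (F₀ : Set M) (F F' : Subfield M), CovStep N₀ (algebraMap k M).fieldRange F F' →
    (∀ a ∈ F, GoodEl2 k F₀ a) → ∀ a ∈ F', GoodEl2 k F₀ a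

theorem stepM_stmt (h1 : StepCStmt.{u}) (h2 : GAlgStmt.{u}) : StepMStmt.{u} := by
  choose N₀ hN₀ using h1
  refine ⟨N₀, ?_⟩
  intro k M _ _ _ _ _ F₀ F F' hstep hF x hx
  obtain ⟨V, W, n, d, N, r, y, L, u, a, m, b, z, hN, hKV, hW, hWc, hLK, hind, hlin0, hu, hred, hpow,
    hval, hstar, halg⟩ := hstep.step
  have hKV' : ∀ c : k, algebraMap k M c ∈ V := fun c => hKV ⟨c, rfl⟩
  let _ : Algebra k V := ((algebraMap k M).codRestrict V hKV').toAlgebra
  have hkV : ∀ c : k, ((algebraMap k V c : V) : M) = algebraMap k M c := fun c => rfl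
  have : IsScalarTower k V M := IsScalarTower.of_algebraMap_eq (fun c => rfl)
  choose c hc using hLK
  have hcL : ∀ i l, algebraMap k V (c i l) = L i l := fun i l => Subtype.ext (hc i l)
  have hlin : ∀ i, lin (c i) y = ∑ l, L i l * y l := fun i => by
    unfold lin
    exact Finset.sum_congr rfl (fun l _ => by rw [hcL])
  -- polynomials with coefficients in the field of constants
  have hsurj : ∀ e : (algebraMap k M).fieldRange, ∃ e' : k, algebraMap k M e' = (e : M) :=
    fun e => e.2
  let ρ : k ≃+* (algebraMap k M).fieldRange :=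
    RingEquiv.ofBijective (algebraMap k M).rangeRestrictField
      ⟨(algebraMap k M).rangeRestrictField.injective, fun e => by
        obtain ⟨e', he'⟩ := hsurj e
        exact ⟨e', Subtype.ext he'⟩⟩
  have hρ : ∀ e : k, ((ρ e : (algebraMap k M).fieldRange) : M) = algebraMap k M e := fun e => rfl
  have hpoly : ∀ (w : Fin (n + 1) → M) (g : MvPolynomial (Fin (n + 1)) (algebraMap k M).fieldRange),
      MvPolynomial.aeval w (MvPolynomial.map (ρ.symm : (algebraMap k M).fieldRange →+* k) g) =
        MvPolynomial.aeval w g := by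
    intro w g
    rw [MvPolynomial.aeval_def, MvPolynomial.eval₂_map, MvPolynomial.aeval_def]
    congr 1
    ext e
    change algebraMap k M (ρ.symm e) = (e : M)
    rw [← hρ, RingEquiv.apply_symm_apply]
  have hgood := hN₀ n k M V F₀ W d N r y c u a m b z hN
    (fun w hw e he => hW w hw (algebraMap k V e) ⟨e, rfl⟩
      (by rw [Ne, map_eq_zero]; exact he))
    (fun x hx => by
      obtain ⟨e, he⟩ := hWc x hx
      exact ⟨e, Subtype.ext he⟩)
    (by
      intro s hs
      have h3 := hind s hs
      rw [Fintype.linearIndependent_iff] at h3 ⊢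
      intro g hg i
      have h4 := h3 (fun i => algebraMap k V (g i)) (by
        funext l
        have h5 := congrFun hg l
        rw [Finset.sum_apply] at h5 ⊢
        simp only [Pi.smul_apply, smul_eq_mul] at h5 ⊢
        have h6 : ∀ x : s, algebraMap k V (g x) * L x l = algebraMap k V (g x * c x l) := by
          intro x; rw [map_mul, hcL]
        rw [Finset.sum_congr rfl (fun x _ => h6 x), ← map_sum, h5]
        simp) i
      exact (map_eq_zero _).1 h4)
    (fun i => by rw [hlin]; exact hlin0 i) hu
    (fun w hw i j => by rw [hlin]; exact hred w hw i j)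
    (fun s hs j => by
      obtain ⟨e, g, hg, hge⟩ := hpow s hs j
      refine ⟨e, fun i => MvPolynomial.map (ρ.symm : (algebraMap k M).fieldRange →+* k) (g i),
        fun i => (hg i).map _, ?_⟩
      change (y j : M) ^ (e + 1) = _
      rw [hge]
      refine Finset.sum_congr rfl (fun i _ => ?_)
      rw [hpoly, hlin]
      rfl)
    (fun j => ⟨hF _ (hval j).1, by
      rw [← (hval j).2]
      refine Finset.prod_congr rfl (fun i _ => ?_)
      rw [hlin]
      rfl⟩)
    hstar
  refine (h2 k M F₀).2.2 _ ?_ x (halg x hx)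
  rintro s (hs | ⟨i, j, rfl⟩)
  · exact hF s hs
  · exact hgood i j

end PGL.H87
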