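import Mathlib
import Pool.Agent.Helper11_PGL.StmtG
import Pool.Agent.Helper11_PGL.StepDefs
import Pool.Agent.Helper87_PGL.StepM
import Pool.Agent.Helper87_PGL.HyperC
import Pool.Agent.Helper97_PGH.TowerDefs
import Pool.Agent.Helper97_PGH.SchemeRel

/-!
# Towers of cover steps: the main theorem
-/

set_option autoImplicit false

open CategoryTheory AlgebraicGeometry PGH

universe u

namespace PGL.H87

theorem good2_of_towerC {k M : Type u} [Field k] [Field M] [Algebra k M] {N₀ : ℕ → ℕ}
    (h1 : ∀ (F₀ : Set M) (F F' : Subfield M), CovStep N₀ (algebraMap k M).fieldRange F F' →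
      (∀ a ∈ F, GoodEl2 k F₀ a) → ∀ a ∈ F', GoodEl2 k F₀ a) {F₀ : Set M} {F F' : Subfield M}
    (h : Relation.ReflTransGen (CovStep N₀ (algebraMap k M).fieldRange) F F')
    (hF : ∀ a ∈ F, GoodEl2 k F₀ a) : ∀ a ∈ F', GoodEl2 k F₀ a := by
  induction h with
  | refl => exact hF
  | tail _ h ih => exact h1 F₀ _ _ h ih

/-- hyperplanes of projective space -/
theorem hyperC {k M : Type u} [Field k] [Field M] [Algebra k M] (N₀ : ℕ → ℕ)
    (F F' : Subfield M) {n N r : ℕ} (x : Fin n → M) (L : Fin N → Fin (n + 1) → k) (u : M)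
    (a : Fin N → Fin r → ℤ) (m : Fin r → ℕ) (b z : Fin r → M) (hFF' : F ≤ F') (hN : N₀ n ≤ N)
    (hnN : n < N) (hx : AlgebraicIndependent k x) (hu : u ≠ 0)
    (hL : ∀ s : Finset (Fin N), s.card = n + 1 → LinearIndependent k (fun i : s => L i))
    (hval : ∀ j, b j ∈ F ∧ ∏ i, ((algebraMap k M (L i 0) +
      ∑ l : Fin n, algebraMap k M (L i l.succ) * x l) / u) ^ a i j = b j * z j ^ m j)
    (hstar : ∀ I : Finset (Fin N), I.Nonempty → I.card ≤ n → ∀ t : ℤ, ∃ j,
      ¬ (m j : ℤ) ∣ ∑ i ∈ I, a i j + t * ∑ i, a i j)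
    (halg : ∀ a ∈ F', IsAlgebraic (Subfield.closure ((F : Set M) ∪ Set.range x)) a) :
    CovStep N₀ (algebraMap k M).fieldRange F F' := by
  obtain ⟨V, _, _, hkV, hcoe⟩ := H11.exists_V x hx
  exact hyperC_core N₀ F F' x L u a m b z hFF' hN hnN hu hL hval hstar halg V hkV hcoe

/-- every linear system step is a cover step -/
theorem covStep_of_linSysStep {M : Type*} [Field M] {N₀ : ℕ → ℕ} (hn : ∀ n, n < N₀ n)
    {K F F' : Subfield M} (h : LinSysStep N₀ K F F') : CovStep N₀ K F F' := by
  classical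
  refine ⟨h.le, ?_⟩
  obtain ⟨V, W, n, N, m, y, L, u, b, z, hN, hm, hKV, hW, hWc, hLK, hind, hred, hval, halg⟩ := h.step
  have hnN : n < N := (hn n).trans_le hN
  have hu : u ≠ 0 := by
    rintro rfl
    have h1 := hval ⟨0, (Nat.zero_le n).trans_lt hnN⟩
    apply h1.1
    apply Subtype.ext
    rw [h1.2.2, zero_mul, zero_mul]
    rfl
  refine ⟨V, W, n, N - 1, N, N, y, L, u, fun i j => if i = j then 1 else 0, fun _ => m, b, z, hN,
    hKV, hW, hWc, hLK, hind, fun i => (hval i).1, hu, hred, ?_, ?_, ?_, halg⟩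
  · intro s hs j
    have hs' : s = Finset.univ := by
      rw [← Finset.card_eq_iff_eq_univ, hs, Fintype.card_fin]
      omega
    obtain ⟨s', -, hs'c⟩ := Finset.exists_superset_card_eq (s := (∅ : Finset (Fin N)))
      (n := n + 1) (by simp) (by simp; omega)
    have h1 : LinearIndependent K (fun i : s' => (fun l => (⟨L i l, hLK i l⟩ : K))) := by
      have h3 := hind s' hs'c
      rw [Fintype.linearIndependent_iff] at h3 ⊢
      intro g hg i
      have h4 := h3 (fun i => ⟨(g i : M), hKV (g i).2⟩) (by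
        funext l
        have h5 := congrArg Subtype.val (congrFun hg l)
        rw [Finset.sum_apply] at h5 ⊢
        apply Subtype.ext
        rw [AddSubmonoidClass.coe_finset_sum] at h5 ⊢
        exact h5) i
      have h6 : (g i : M) = 0 := congrArg (fun v : V => (v : M)) h4
      exact Subtype.ext h6
    obtain ⟨c, hc⟩ := exists_comb (fun i l => (⟨L i l, hLK i l⟩ : K)) s' hs'c h1 j
    refine ⟨0, fun i => MvPolynomial.C (if i ∈ s' then c i else 0),
      fun i => MvPolynomial.isHomogeneous_C _ _, ?_⟩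
    have h2 : ∀ i, MvPolynomial.aeval (fun l => (y l : M))
        (MvPolynomial.C (if i ∈ s' then c i else 0) : MvPolynomial (Fin (n + 1)) K) =
        if i ∈ s' then (c i : M) else 0 := by
      intro i
      rw [MvPolynomial.aeval_C]
      split_ifs
      · rfl
      · rw [map_zero]
    have h3 : ∀ l, (if l = j then (1 : M) else 0) = ∑ i ∈ s', (c i : M) * (L i l : M) := by
      intro l
      have h4 := congrArg (fun v : K => (v : M)) (hc l)
      rw [AddSubmonoidClass.coe_finset_sum] at h4
      refine Eq.trans ?_ h4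
      split_ifs <;> rfl
    rw [zero_add, pow_one, hs', Finset.sum_congr rfl (fun i _ => by rw [h2 i])]
    have h5 : ∀ i, (if i ∈ s' then (c i : M) else 0) * ((∑ l, L i l * y l : V) : M) =
        if i ∈ s' then (c i : M) * ((∑ l, L i l * y l : V) : M) else 0 := by
      intro i
      split_ifs
      · rfl
      · rw [zero_mul]
    rw [Finset.sum_congr rfl (fun i _ => h5 i), Finset.sum_ite_mem, Finset.univ_inter]
    have h6 : ∀ i, (c i : M) * ((∑ l, L i l * y l : V) : M) =
        ∑ l, (c i : M) * (L i l : M) * (y l : M) := by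
      intro i
      rw [AddSubmonoidClass.coe_finset_sum, Finset.mul_sum]
      exact Finset.sum_congr rfl (fun l _ => (mul_assoc _ _ _).symm)
    rw [Finset.sum_congr rfl (fun i _ => h6 i), Finset.sum_comm]
    have h7 : ∀ l, ∑ i ∈ s', (c i : M) * (L i l : M) * (y l : M) =
        if l = j then (y l : M) else 0 := by
      intro l
      rw [← Finset.sum_mul, ← h3 l]
      split_ifs
      · rw [one_mul]
      · rw [zero_mul]
    rw [Finset.sum_congr rfl (fun l _ => h7 l)]
    simp
  · intro j
    refine ⟨(hval j).2.1, ?_⟩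
    change ∏ i, (((∑ l, L i l * y l : V) : M) / u) ^ (if i = j then (1 : ℤ) else 0) = b j * z j ^ m
    rw [Finset.prod_eq_single j]
    · rw [if_pos rfl, zpow_one, (hval j).2.2]
      field_simp
    · intro i _ hij
      rw [if_neg hij, zpow_zero]
    · intro h
      exact absurd (Finset.mem_univ j) h
  · intro I hI hIc t
    obtain ⟨j, hj⟩ := hI
    obtain ⟨j', hj'⟩ : ∃ j', j' ∉ I := by
      by_contra hcon
      push Not at hcon
      have : I = Finset.univ := Finset.eq_univ_iff_forall.2 hcon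
      rw [this, Finset.card_univ, Fintype.card_fin] at hIc
      omega
    have h1 : ∀ j : Fin N, ∑ i : Fin N, (if i = j then (1 : ℤ) else 0) = 1 := fun j => by
      rw [Finset.sum_ite_eq' Finset.univ j, if_pos (Finset.mem_univ j)]
    have h2 : ∀ j : Fin N, ∑ i ∈ I, (if i = j then (1 : ℤ) else 0) = if j ∈ I then 1 else 0 :=
      fun j => by
        rw [Finset.sum_ite_eq' I j]
    by_contra hcon
    push Not at hcon
    have h3 : (m : ℤ) ∣ ∑ i ∈ I, (if i = j then (1 : ℤ) else 0) +
        t * ∑ i : Fin N, (if i = j then (1 : ℤ) else 0) := hcon j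
    have h4 : (m : ℤ) ∣ ∑ i ∈ I, (if i = j' then (1 : ℤ) else 0) +
        t * ∑ i : Fin N, (if i = j' then (1 : ℤ) else 0) := hcon j'
    rw [h1, h2, if_pos hj] at h3
    rw [h1, h2, if_neg hj'] at h4
    have h5 := dvd_sub h3 h4
    rw [show (1 : ℤ) + t * 1 - (0 + t * 1) = 1 by ring] at h5
    have h6 := Int.le_of_dvd one_pos h5
    omega

end PGL.H87
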