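import Mathlib
import Pool.Agent.Helper97_PGH.TowerDefs
import Pool.Agent.Helper97_PGH.Diag
import Pool.Agent.Helper11_PGH.PolyStep
import Pool.Agent.Helper11_PGH.PolyGood
import Pool.Agent.Helper11_PGL.StmtG
import Pool.Agent.Helper11_PGL.StepG
import Pool.Agent.Helper13_PGL.Drat

/-!
# Diagonal and polynomial steps preserve the good elements of the second kind
-/

set_option autoImplicit false

open PGH Polynomial

universe u

namespace PGL.H87

section

variable {k : Type u} {M : Type u} [Field k] [Field M] [Algebra k M] [IsAlgClosed k] [CharZero k]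

open Classical in
/-- the set of a diagonal family of relations -/
noncomputable def TD {N : ℕ} (T : Finset (Fin N) → Fin N → Set M) (z : Fin N → M)
    (d : Finset (Fin N) → ℕ) (c : Finset (Fin N) → Fin N → M) : Set M :=
  (⋃ A, ⋃ i, T A i) ∪ (Set.range z ∪ Set.range (fun i => (z i)⁻¹) ∪
    Set.range (fun A : Finset (Fin N) => (∑ i ∈ A, c A i * z i ^ d A)⁻¹) ∪
    Set.range (fun q : Finset (Fin N) × Fin N => (c q.1 q.2)⁻¹))

open Classical in
theorem diag_ht {N : ℕ} (z : Fin N → M) (hz0 : ∀ i, z i ≠ 0)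
    (i0 : Fin N) (hz1 : z i0 = 1) (T : Finset (Fin N) → Fin N → Set M)
    (s d : Finset (Fin N) → ℕ) (c : Finset (Fin N) → Fin N → M)
    (hsd : ∀ A : Finset (Fin N), A.Nonempty → A ≠ Finset.univ → s A * (s A - 2) < d A)
    (hcs : ∀ A : Finset (Fin N), A.Nonempty → A ≠ Finset.univ →
      (Finset.univ.filter (fun i => c A i ≠ 0)).card ≤ s A)
    (hc0 : ∀ A : Finset (Fin N), A.Nonempty → A ≠ Finset.univ → ∑ i, c A i * z i ^ d A = 0)
    (hcA : ∀ A : Finset (Fin N), A.Nonempty → A ≠ Finset.univ → ∑ i ∈ A, c A i * z i ^ d A ≠ 0)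
    (hcT : ∀ A : Finset (Fin N), A.Nonempty → A ≠ Finset.univ → ∀ i, c A i ∈ T A i)
    (R : Subalgebra k M) (hTR : TD T z d c ⊆ (R : Set M)) {E : Type u} [Field E] [Algebra k E]
    [FF k E] (φ : R →ₐ[k] E) {D : Derivation ℤ E E}
    (hconst : ∀ z, D z = 0 → ∃ c : k, algebraMap k E c = z)
    (cp : Place k E → ℕ) (sc : Finset (Place k E)) (hsc : ∀ P ∉ sc, cp P = 0)
    (hcp : ∀ P, DGe P D (-(cp P : ℤ))) (B0 : ℕ)
    (hB : ∀ A : Finset (Fin N), A.Nonempty → A ≠ Finset.univ → ∀ i, ht k (ev φ (c A i)) ≤ B0)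
    (i : Fin N) : ht k (ev φ (z i)) ≤ N * ∑ A, HB (d A) (s A) cp sc B0 := by
  have hsub : ∀ A i, T A i ⊆ TD T z d c := fun A i =>
    (Set.subset_iUnion (fun i => T A i) i).trans ((Set.subset_iUnion (fun A => ⋃ i, T A i) A).trans
      Set.subset_union_left)
  have hzT : ∀ i, z i ∈ TD T z d c := fun i => Or.inr (Or.inl (Or.inl (Or.inl ⟨i, rfl⟩)))
  have hzT' : ∀ i, (z i)⁻¹ ∈ TD T z d c := fun i => Or.inr (Or.inl (Or.inl (Or.inr ⟨i, rfl⟩)))
  have hAT : ∀ A, (∑ i ∈ A, c A i * z i ^ d A)⁻¹ ∈ TD T z d c := fun A =>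
    Or.inr (Or.inl (Or.inr ⟨A, rfl⟩))
  set H0 : ℕ := ∑ A, HB (d A) (s A) cp sc B0 with hH0
  have hHle : ∀ A, HB (d A) (s A) cp sc B0 ≤ H0 := fun A =>
    Finset.single_le_sum (f := fun A => HB (d A) (s A) cp sc B0) (fun _ _ => Nat.zero_le _)
      (Finset.mem_univ A)
  have hzR : ∀ i, z i ∈ R := fun i => hTR (hzT i)
  set ζ : Fin N → E := fun i => ev φ (z i) with hζdef
  have hζ : ∀ i, ζ i ≠ 0 := fun i => ev_ne_zero φ (hzR i) (hTR (hzT' i)) (hz0 i)
  let G : SimpleGraph (Fin N) :=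
    { Adj := fun i j => i ≠ j ∧ ht k (ζ i / ζ j) ≤ H0
      symm := ⟨fun i j h => ⟨h.1.symm, by rw [← inv_div, ht_inv]; exact h.2⟩⟩
      loopless := ⟨fun i h => h.1 rfl⟩ }
  have hreach : ∀ i, G.Reachable i0 i := by
    by_contra hcon
    push Not at hcon
    obtain ⟨i1, hi1⟩ := hcon
    set A : Finset (Fin N) := Finset.univ.filter (fun i => G.Reachable i0 i) with hA
    have hAne : A.Nonempty := ⟨i0, by rw [hA, Finset.mem_filter]; exact ⟨Finset.mem_univ _,
      SimpleGraph.Reachable.refl _⟩⟩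
    have hAu : A ≠ Finset.univ := by
      intro h
      have : i1 ∈ A := by rw [h]; exact Finset.mem_univ _
      rw [hA, Finset.mem_filter] at this
      exact hi1 this.2
    have hcR : ∀ i, c A i ∈ R := fun i => hTR (hsub A i (hcT A hAne hAu i))
    set γ : Fin N → E := fun i => ev φ (c A i) with hγ
    have hyR : ∀ i, c A i * z i ^ d A ∈ R := fun i => mul_mem (hcR i) (pow_mem (hzR i) (d A))
    have hy : ∀ i, ev φ (c A i * z i ^ d A) = γ i * ζ i ^ d A := fun i => by
      rw [ev_mul φ (hcR i) (pow_mem (hzR i) (d A)), ev_pow φ (hzR i)]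
    have hsum : ∑ i, γ i * ζ i ^ d A = 0 := by
      have h1 := congrArg (ev φ) (hc0 A hAne hAu)
      rw [ev_zero, ev_sum φ _ _ (fun i _ => hyR i)] at h1
      rw [← h1]
      exact Finset.sum_congr rfl (fun i _ => (hy i).symm)
    have h1 := blocks (constField D) (fun i => γ i * ζ i ^ d A) (fun i => G.Reachable i0 i) (by
      intro c' hc' i j hi hj
      have h2 : G.Reachable i j := by
        by_cases hij : i = j
        · rw [hij]
        · apply SimpleGraph.Adj.reachable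
          refine ⟨hij, ?_⟩
          refine (circ_one (hsd A hAne hAu) hconst cp sc hsc hcp γ ζ B0 ?_ hζ ?_ c' hc' i j
            hi hj).trans (hHle A)
          · exact hB A hAne hAu
          · refine le_trans (Finset.card_le_card ?_) (hcs A hAne hAu)
            intro l hl
            rw [Finset.mem_filter] at hl ⊢
            refine ⟨hl.1, fun h0 => hl.2 ?_⟩
            rw [hγ]
            simp only
            rw [h0, ev_zero]
      exact ⟨fun h => h.trans h2, fun h => h.trans h2.symm⟩) (fun _ => 1)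
      ⟨fun _ => one_mem _, by simpa using hsum⟩
    have h2 : ev φ (∑ i ∈ A, c A i * z i ^ d A) = 0 := by
      rw [ev_sum φ _ _ (fun i _ => hyR i), ← h1]
      refine Finset.sum_congr ?_ (fun i _ => by rw [hy, one_mul])
      ext j
      simp only [hA, Finset.mem_filter]
    exact ev_ne_zero φ (sum_mem (fun i _ => hyR i)) (hTR (hAT A)) (hcA A hAne hAu) h2
  have h1 : ζ i0 = 1 := by rw [hζdef]; simp only; rw [hz1, ev_one]
  obtain ⟨p, hp⟩ := (hreach i).symm.exists_isPath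
  have h2 := ht_walk ζ hζ G _ (fun i j h => h.2) p
  rw [h1, div_one] at h2
  refine h2.trans ?_
  apply Nat.mul_le_mul_right
  have := hp.length_lt
  rw [Fintype.card_fin] at this
  omega

theorem HB_zero {k E : Type*} [Field k] [Field E] [Algebra k E] (d s : ℕ) (c : Place k E → ℕ) :
    HB d s c ∅ 0 = 0 := by
  unfold HB
  simp

/-- bounded heights from a uniform bound -/
theorem bdd_of {F₀ T : Set M} {ι : Type} [Finite ι] (Tb : ι → Set M) (c : ι → M)
    (hsub : ∀ i, Tb i ⊆ T) (hc : ∀ i, Bdd k F₀ (Tb i) (c i)) (a : M)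
    (H : ∀ (E : Type u) [Field E] [Algebra k E] [FF k E] (D : Derivation ℤ E E),
      (∀ c : k, D (algebraMap k E c) = 0) → (∀ z, D z = 0 → ∃ c : k, algebraMap k E c = z) →
      ∀ (cp : Place k E → ℕ) (sc : Finset (Place k E)), (∀ P ∉ sc, cp P = 0) →
        (∀ P, DGe P D (-(cp P : ℤ))) → ∀ B0 : ℕ, ∃ B1 : ℕ, ∀ (R : Subalgebra k M),
          T ⊆ (R : Set M) → ∀ φ : R →ₐ[k] E, (∀ i, ht k (ev φ (c i)) ≤ B0) →
            ht k (ev φ a) ≤ B1) : Bdd k F₀ T a := by
  have := Fintype.ofFinite ι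
  intro E _ _ _ ψ
  have hch : CharZero E := charZero_of_injective_algebraMap (algebraMap k E).injective
  obtain ⟨t, htr⟩ := FF.exists_transcendental (L := k) (E := E)
  obtain ⟨δ, hδ⟩ := exists_deriv k E htr
  let D : Derivation ℤ E E := δ.restrictScalars ℤ
  have hDk : ∀ c : k, D (algebraMap k E c) = 0 := fun c => δ.map_algebraMap c
  have hPL : PresL k D := fun c => ⟨0, by rw [hDk, map_zero]⟩
  have hDt : D t ≠ 0 := by
    change δ t ≠ 0
    rw [hδ]; exact one_ne_zero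
  have hconst : ∀ w, D w = 0 → ∃ c : k, algebraMap k E c = w := by
    intro w hw
    apply not_transcendental
    intro hwt
    have hal := FF.isAlgebraic hwt
    exact hDt (deriv_zero_of_isAlgebraic_adjoin (AlgHom.id k E) D hDk hw (hal.isAlgebraic t))
  obtain ⟨cp, sc, hsc, hcp⟩ := bounded_poles (L := k) D hPL
  choose B hB using fun i => hc i E ψ
  obtain ⟨B1, hB1⟩ := H E D hDk hconst cp sc hsc hcp (∑ i, B i)
  refine ⟨B1, fun R hTR φ hψ => hB1 R hTR φ (fun i => ?_)⟩
  exact (hB i R ((hsub i).trans hTR) φ (fun t ht => hψ t (hsub i ht))).trans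
    (Finset.single_le_sum (f := fun i => B i) (fun _ _ => Nat.zero_le _) (Finset.mem_univ i))

/-- constant values at rational curves -/
theorem noRat_of {F₀ T : Set M} {ι : Type} (Tb : ι → Set M) (c : ι → M)
    (hsub : ∀ i, Tb i ⊆ T) (hc : ∀ i, NoRat k F₀ (Tb i) (c i)) (a : M)
    (H : ∀ (E : Type u) [Field E] [Algebra k E] [FF k E] (D : Derivation ℤ E E),
      (∀ c : k, D (algebraMap k E c) = 0) → (∀ z, D z = 0 → ∃ c : k, algebraMap k E c = z) →
      (∀ P : Place k E, DGe P D (-((0 : ℕ) : ℤ))) → ∀ (R : Subalgebra k M),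
        T ⊆ (R : Set M) → ∀ φ : R →ₐ[k] E, (∀ i, ht k (ev φ (c i)) ≤ 0) →
            ht k (ev φ a) ≤ 0) : NoRat k F₀ T a := by
  intro E _ _ z hz hz' R hTR φ hF₀
  obtain ⟨hFF, D, hDk, hconst, hD0⟩ := H13.dRat k E z hz hz'
  refine ht_eq_zero_iff (le_antisymm ?_ (Nat.zero_le _))
  refine H E D hDk (fun w hw => hconst w hw) (fun P => by simpa using hD0 P) R hTR φ
    (fun i => ?_)
  obtain ⟨c', hc'⟩ := hc i E z hz hz' R ((hsub i).trans hTR) φ (fun t ht => hF₀ t (hsub i ht))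
  rw [hc', ht_const]

open Classical in
theorem diag_good2 {F₀ : Set M} {N : ℕ} (z : Fin N → M) (hz0 : ∀ i, z i ≠ 0)
    (i0 : Fin N) (hz1 : z i0 = 1)
    (hrel : ∀ A : Finset (Fin N), A.Nonempty → A ≠ Finset.univ → ∃ (s d : ℕ) (c : Fin N → M),
      s * (s - 2) < d ∧ (∀ i, GoodEl2 k F₀ (c i)) ∧
      (Finset.univ.filter (fun i => c i ≠ 0)).card ≤ s ∧
      ∑ i, c i * z i ^ d = 0 ∧ ∑ i ∈ A, c i * z i ^ d ≠ 0) (i : Fin N) : GoodEl2 k F₀ (z i) := by
  choose! s d c hsd hcg hcs hc0 hcA using hrel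
  have hTex : ∀ (A : Finset (Fin N)) (i : Fin N), ∃ T : Set M, T.Finite ∧
      (A.Nonempty → A ≠ Finset.univ → c A i ∈ T ∧ Bdd k F₀ T (c A i) ∧ NoRat k F₀ T (c A i)) := by
    intro A i
    by_cases hA : A.Nonempty ∧ A ≠ Finset.univ
    · obtain ⟨T, h1, h2, h3, h4⟩ := hcg A hA.1 hA.2 i
      exact ⟨T, h1, fun _ _ => ⟨h2, h3, h4⟩⟩
    · exact ⟨∅, Set.finite_empty, fun h1 h2 => absurd ⟨h1, h2⟩ hA⟩
  choose T hTf hT using hTex
  have hTDf : (TD T z d c).Finite := by
    apply Set.Finite.union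
    · exact Set.finite_iUnion (fun A => Set.finite_iUnion (fun i => hTf A i))
    · exact ((((Set.finite_range _).union (Set.finite_range _)).union (Set.finite_range _)).union
        (Set.finite_range _))
  have hsub : ∀ A i, T A i ⊆ TD T z d c := fun A i =>
    (Set.subset_iUnion (fun i => T A i) i).trans ((Set.subset_iUnion (fun A => ⋃ i, T A i) A).trans
      Set.subset_union_left)
  let ι := {A : Finset (Fin N) // A.Nonempty ∧ A ≠ Finset.univ} × Fin N
  have hcT : ∀ A : Finset (Fin N), A.Nonempty → A ≠ Finset.univ → ∀ i, c A i ∈ T A i :=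
    fun A h1 h2 i => (hT A i h1 h2).1
  refine ⟨TD T z d c, hTDf, Or.inr (Or.inl (Or.inl (Or.inl ⟨i, rfl⟩))), ?_, ?_⟩
  · refine bdd_of (ι := ι) (fun q => T q.1.1 q.2) (fun q => c q.1.1 q.2) (fun q => hsub _ _)
      (fun q => (hT q.1.1 q.2 q.1.2.1 q.1.2.2).2.1) (z i) ?_
    intro E _ _ _ D hDk hconst cp sc hsc hcp B0
    exact ⟨_, fun R hTR φ hB => diag_ht z hz0 i0 hz1 T s d c hsd hcs hc0 hcA hcT R hTR φ hconst cp
      sc hsc hcp B0 (fun A h1 h2 i => hB (⟨A, h1, h2⟩, i)) i⟩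
  · refine noRat_of (ι := ι) (fun q => T q.1.1 q.2) (fun q => c q.1.1 q.2) (fun q => hsub _ _)
      (fun q => (hT q.1.1 q.2 q.1.2.1 q.1.2.2).2.2) (z i) ?_
    intro E _ _ _ D hDk hconst hD0 R hTR φ hB
    refine (diag_ht z hz0 i0 hz1 T s d c hsd hcs hc0 hcA hcT R hTR φ hconst (fun _ => 0)
      ∅ (fun _ _ => rfl) hD0 0 (fun A h1 h2 i => hB (⟨A, h1, h2⟩, i)) i).trans ?_
    rw [Finset.sum_eq_zero (fun A _ => HB_zero _ _ _), mul_zero]

open Classical in
theorem poly_good2 {F₀ : Set M} {n N m : ℕ} (hN : 2 * n * m < N * (m - 1)) (P : M[X])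
    (hP : P.Monic) (hsep : P.Separable) (hn : P.natDegree ≤ n) (a : Fin N → k)
    (ha : Function.Injective a) (u : M) (b z : Fin N → M) (hb : ∀ i, GoodEl2 k F₀ (b i))
    (hval : ∀ i, P.eval (algebraMap k M (a i)) = u * b i * z i ^ m)
    (hne : ∀ i, P.eval (algebraMap k M (a i)) ≠ 0) (l : ℕ) : GoodEl2 k F₀ (P.coeff l) := by
  choose Tb hTb hbT hbB hbR using hb
  obtain ⟨A, B, hAB⟩ := hsep
  set T0 : Set M := (⋃ i, Tb i) ∪ ((P.coeffs : Set M) ∪ (A.coeffs : Set M) ∪ (B.coeffs : Set M) ∪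
    {P.coeff l, u} ∪ Set.range z ∪ Set.range (fun i => (P.eval (algebraMap k M (a i)))⁻¹)) with hT0
  have hT0f : T0.Finite := by
    apply Set.Finite.union
    · exact Set.finite_iUnion (fun i => hTb i)
    · exact (((((Finset.finite_toSet _).union (Finset.finite_toSet _)).union
        (Finset.finite_toSet _)).union (Set.toFinite _)).union (Set.finite_range _)).union
        (Set.finite_range _)
  have hsub : ∀ i, Tb i ⊆ T0 := fun i => (Set.subset_iUnion Tb i).trans Set.subset_union_left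
  have hcoef : ∀ (R : Subalgebra k M), T0 ⊆ (R : Set M) → ∀ (Q : M[X]),
      (Q.coeffs : Set M) ⊆ T0 → ∀ i, Q.coeff i ∈ R := by
    intro R hTR Q hQ i
    by_cases h0 : Q.coeff i = 0
    · rw [h0]; exact zero_mem R
    · exact hTR (hQ (coeff_mem_coeffs h0))
  have hPT : (P.coeffs : Set M) ⊆ T0 := fun x hx =>
    Or.inr (Or.inl (Or.inl (Or.inl (Or.inl (Or.inl hx)))))
  have hAT : (A.coeffs : Set M) ⊆ T0 := fun x hx =>
    Or.inr (Or.inl (Or.inl (Or.inl (Or.inl (Or.inr hx)))))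
  have hBT : (B.coeffs : Set M) ⊆ T0 := fun x hx =>
    Or.inr (Or.inl (Or.inl (Or.inl (Or.inr hx))))
  have hlT : P.coeff l ∈ T0 := Or.inr (Or.inl (Or.inl (Or.inr (Or.inl rfl))))
  have huT : u ∈ T0 := Or.inr (Or.inl (Or.inl (Or.inr (Or.inr rfl))))
  have hzT : ∀ i, z i ∈ T0 := fun i => Or.inr (Or.inl (Or.inr ⟨i, rfl⟩))
  have hiT : ∀ i, (P.eval (algebraMap k M (a i)))⁻¹ ∈ T0 := fun i => Or.inr (Or.inr ⟨i, rfl⟩)
  have key : ∀ (E : Type u) [Field E] [Algebra k E] [FF k E] (D : Derivation ℤ E E),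
      (∀ c : k, D (algebraMap k E c) = 0) → (∀ z, D z = 0 → ∃ c : k, algebraMap k E c = z) →
      ∀ (cp : Place k E → ℕ) (sc : Finset (Place k E)), (∀ P ∉ sc, cp P = 0) →
        (∀ P, DGe P D (-(cp P : ℤ))) → ∀ B0 : ℕ, ∀ (R : Subalgebra k M),
          T0 ⊆ (R : Set M) → ∀ φ : R →ₐ[k] E, (∀ i, ht k (ev φ (b i)) ≤ B0) →
            ht k (ev φ (P.coeff l)) ≤ m * (n * ∑ P ∈ sc, cp P + N * (N * (2 * B0))) := by
    intro E _ _ _ D hDk hconst cp sc hsc hcp B0 R hTR φ hB
    obtain ⟨PR, hcoe, hdata⟩ := PT.lift_data P hP A B hAB hn a u b z hval hne R (hcoef R hTR P hPT)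
      (hcoef R hTR A hAT) (hcoef R hTR B hBT) (hTR huT) (fun i => hTR (hsub i (hbT i)))
      (fun i => hTR (hzT i)) (fun i => hTR (hiT i))
    obtain ⟨h1, h2, h3, h4, h5, h6⟩ := hdata φ
    rw [← h4]
    exact PT.poly_height hconst cp sc hsc hcp h1 h2 h3 hN a ha (fun i => hDk _) (ev φ u)
      (fun i => ev φ (b i)) (fun i => ev φ (z i)) h5 h6 B0 hB l
  refine ⟨T0, hT0f, hlT, ?_, ?_⟩
  · refine bdd_of (ι := Fin N) Tb b hsub hbB _ ?_
    intro E _ _ _ D hDk hconst cp sc hsc hcp B0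
    exact ⟨_, fun R hTR φ hB => key E D hDk hconst cp sc hsc hcp B0 R hTR φ hB⟩
  · refine noRat_of (ι := Fin N) Tb b hsub hbR _ ?_
    intro E _ _ _ D hDk hconst hD0 R hTR φ hB
    refine (key E D hDk hconst (fun _ => 0) ∅ (fun _ _ => rfl) hD0 0 R hTR φ hB).trans ?_
    simp

theorem good2_of_isAlgebraic (hG : GAlgStmt.{u}) {F₀ S : Set M} (hS : ∀ s ∈ S, GoodEl2 k F₀ s)
    {a : M} (ha : IsAlgebraic (Subfield.closure S) a) : GoodEl2 k F₀ a :=
  (hG k M F₀).2.2 S hS a ha

theorem good2_div (hG : GAlgStmt.{u}) {F₀ : Set M} {x y : M} (hx : GoodEl2 k F₀ x)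
    (hy : GoodEl2 k F₀ y) : GoodEl2 k F₀ (x / y) := by
  refine good2_of_isAlgebraic hG (S := {x, y}) ?_ ?_
  · rintro s (rfl | rfl)
    · exact hx
    · exact hy
  · have h3 : x / y ∈ Subfield.closure {x, y} :=
      div_mem (Subfield.subset_closure (Or.inl rfl)) (Subfield.subset_closure (Or.inr rfl))
    exact isAlgebraic_algebraMap (⟨_, h3⟩ : Subfield.closure {x, y})

theorem good2_of_diagStep (hG : GAlgStmt.{u}) {F₀ : Set M} {F F' : Subfield M}
    (h : DiagStep F F') (hF : ∀ a ∈ F, GoodEl2 k F₀ a) : ∀ a ∈ F', GoodEl2 k F₀ a := by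
  classical
  intro a ha
  obtain ⟨N, x, hx, halg, hrel⟩ := h.step
  refine good2_of_isAlgebraic hG ?_ (halg a ha)
  rintro w (hw | ⟨i, j, rfl⟩)
  · exact hF w hw
  · have hN : 0 < N := lt_of_le_of_lt (Nat.zero_le _) i.2
    let i0 : Fin N := ⟨0, hN⟩
    have hgood : ∀ i, GoodEl2 k F₀ (x i / x i0) := by
      refine diag_good2 (fun i => x i / x i0) (fun i => div_ne_zero (hx i).2 (hx i0).2) i0
        (div_self (hx i0).2) ?_
      intro A hA hA'
      obtain ⟨d, c, hc, hs, h0, h1⟩ := hrel A hA hA'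
      refine ⟨_, d, c, hs, fun i => hF _ (hc i), ?_, ?_, ?_⟩
      · rw [Nat.card_eq_fintype_card, Fintype.card_subtype]
      · have h2 : ∑ i, c i * (x i / x i0) ^ d = (∑ i, c i * x i ^ d) / x i0 ^ d := by
          rw [Finset.sum_div]
          exact Finset.sum_congr rfl (fun i _ => by rw [div_pow, mul_div_assoc])
        rw [h2, h0, zero_div]
      · have h2 : ∑ i ∈ A, c i * (x i / x i0) ^ d = (∑ i ∈ A, c i * x i ^ d) / x i0 ^ d := by
          rw [Finset.sum_div]
          exact Finset.sum_congr rfl (fun i _ => by rw [div_pow, mul_div_assoc])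
        rw [h2]
        exact div_ne_zero h1 (pow_ne_zero _ (hx i0).2)
    have h2 : x i / x j = (x i / x i0) / (x j / x i0) := by
      have := (hx i0).2
      have := (hx j).2
      field_simp
    rw [h2]
    exact good2_div hG (hgood i) (hgood j)

theorem good2_of_polyStep (hG : GAlgStmt.{u}) {F₀ : Set M} {F F' : Subfield M}
    (h : PolyStep (algebraMap k M).fieldRange F F') (hF : ∀ a ∈ F, GoodEl2 k F₀ a) :
    ∀ a ∈ F', GoodEl2 k F₀ a := by
  intro w hw
  obtain ⟨n, N, m, P, u, a, b, z, hN, hn, hsep, ha, hval, halg⟩ := h.step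
  refine good2_of_isAlgebraic hG ?_ (halg w hw)
  rintro y (hy | ⟨i, j, rfl⟩)
  · exact hF y hy
  · have hN0 : 0 < N := by
      rcases Nat.eq_zero_or_pos N with h0 | h0
      · subst h0; simp at hN
      · exact h0
    have hP0 : P ≠ 0 := by
      rintro rfl
      exact (hval ⟨0, hN0⟩).2.2.1 (by simp)
    choose a' ha' using fun i => (hval i).1
    have hlc : P.leadingCoeff ≠ 0 := leadingCoeff_ne_zero.2 hP0
    set P' : M[X] := P * C P.leadingCoeff⁻¹ with hP'
    have hm' : P'.Monic := monic_mul_leadingCoeff_inv hP0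
    have hsep' : P'.Separable := by
      obtain ⟨A, B, hAB⟩ := hsep
      refine ⟨A * C P.leadingCoeff, B * C P.leadingCoeff, ?_⟩
      have h1 : C P.leadingCoeff * C P.leadingCoeff⁻¹ = 1 := by
        rw [← C_mul, mul_inv_cancel₀ hlc, C_1]
      have h2 : derivative P' = derivative P * C P.leadingCoeff⁻¹ := by
        rw [hP', derivative_mul, derivative_C, mul_zero, add_zero]
      rw [h2]
      calc A * C P.leadingCoeff * (P * C P.leadingCoeff⁻¹) +
            B * C P.leadingCoeff * (derivative P * C P.leadingCoeff⁻¹) =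
            (A * P + B * derivative P) * (C P.leadingCoeff * C P.leadingCoeff⁻¹) := by ring
        _ = 1 := by rw [hAB, h1, one_mul]
    have hn' : P'.natDegree ≤ n := by
      refine le_trans ?_ hn
      rw [hP']
      refine natDegree_mul_le.trans ?_
      rw [natDegree_C, add_zero]
    have hgood : ∀ l, GoodEl2 k F₀ (P'.coeff l) := by
      intro l
      refine poly_good2 hN P' hm' hsep' hn' a' ?_ (u * P.leadingCoeff⁻¹) b z
        (fun i => hF _ (hval i).2.1) ?_ ?_ l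
      · intro i j hij
        apply ha
        rw [← ha' i, ← ha' j, hij]
      · intro i
        rw [ha' i, hP', eval_mul, eval_C, (hval i).2.2.2]
        ring
      · intro i
        rw [ha' i, hP', eval_mul, eval_C]
        exact mul_ne_zero (hval i).2.2.1 (inv_ne_zero hlc)
    have hratio : P.coeff i / P.coeff j = P'.coeff i / P'.coeff j := by
      rw [hP', coeff_mul_C, coeff_mul_C, mul_div_mul_right _ _ (inv_ne_zero hlc)]
    rw [hratio]
    exact good2_div hG (hgood i) (hgood j)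

end

end PGL.H87
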