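import Mathlib
import Pool.Agent.Helper97_PGH.TowerDefs
import Pool.Agent.Helper11_PGH.PolyStep
import Pool.Agent.Helper87_PGL.CovDefs

/-!
# Definition of the steps of mixed towers
-/

namespace PGL

/-- A step of a mixed tower, relative to the field of constants `K`: a cover step, a polynomial step
or a diagonal step. -/
def MixStep {M : Type*} [Field M] (N₀ : ℕ → ℕ) (K F F' : Subfield M) : Prop :=
  CovStep N₀ K F F' ∨ PGH.PolyStep K F F' ∨ PGH.DiagStep F F'

end PGL
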