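import Mathlib
import Pool.Agent.Helper87_PGL.MixDefs
import Pool.Agent.Helper87_PGL.Mix
import Pool.Agent.Helper87_PGL.MainC

/-!
# Mixed towers: the main theorem
-/

set_option autoImplicit false

open CategoryTheory AlgebraicGeometry PGH

universe u

namespace PGL.H87

theorem covStep_mono {M : Type*} [Field M] {N₀ N₁ : ℕ → ℕ} (h01 : ∀ n, N₁ n ≤ N₀ n)
    {K F F' : Subfield M} (h : CovStep N₀ K F F') : CovStep N₁ K F F' := by
  refine ⟨h.le, ?_⟩
  obtain ⟨V, W, n, d, N, r, y, L, u, a, m, b, z, hN, h⟩ := h.step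
  exact ⟨V, W, n, d, N, r, y, L, u, a, m, b, z, (h01 n).trans hN, h⟩

theorem good2_of_mixStep {k M : Type u} [Field k] [Field M] [Algebra k M] [IsAlgClosed k]
    [CharZero k] (hG : GAlgStmt.{u}) {N₀ : ℕ → ℕ}
    (h1 : ∀ (F₀ : Set M) (F F' : Subfield M), CovStep N₀ (algebraMap k M).fieldRange F F' →
      (∀ a ∈ F, GoodEl2 k F₀ a) → ∀ a ∈ F', GoodEl2 k F₀ a) {F₀ : Set M} {F F' : Subfield M}
    (h : MixStep N₀ (algebraMap k M).fieldRange F F')
    (hF : ∀ a ∈ F, GoodEl2 k F₀ a) : ∀ a ∈ F', GoodEl2 k F₀ a := by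
  rcases h with h | h | h
  · exact h1 F₀ F F' h hF
  · exact good2_of_polyStep hG h hF
  · exact good2_of_diagStep hG h hF

theorem good2_of_mixTower {k M : Type u} [Field k] [Field M] [Algebra k M] [IsAlgClosed k]
    [CharZero k] (hG : GAlgStmt.{u}) {N₀ : ℕ → ℕ}
    (h1 : ∀ (F₀ : Set M) (F F' : Subfield M), CovStep N₀ (algebraMap k M).fieldRange F F' →
      (∀ a ∈ F, GoodEl2 k F₀ a) → ∀ a ∈ F', GoodEl2 k F₀ a) {F₀ : Set M} {F F' : Subfield M}
    (h : Relation.ReflTransGen (MixStep N₀ (algebraMap k M).fieldRange) F F')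
    (hF : ∀ a ∈ F, GoodEl2 k F₀ a) : ∀ a ∈ F', GoodEl2 k F₀ a := by
  induction h with
  | refl => exact hF
  | tail _ h ih => exact good2_of_mixStep hG h1 h ih

/-- the main theorem on mixed towers -/
theorem main_mix (h1 : StepMStmt.{u}) (h2 : Fin2BStmt.{u}) (h3 : GAlgStmt.{u}) :
    ∃ N₀ : ℕ → ℕ, ∀ {k : Type u} [Field k] [IsAlgClosed k] [CharZero k] {X : Scheme.{u}}
      (f : X ⟶ Spec (.of k)) [IsIntegral X] [IsSeparated f] [LocallyOfFiniteType f]
      [QuasiCompact f],
      (Relation.ReflTransGen (MixStep N₀ (constants k f).fieldRange)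
        (constants k f).fieldRange ⊤ → IsPGH k f) ∧
      (∀ {Y : Scheme.{u}} (q : Y ⟶ Spec (.of k)) [IsIntegral Y] (g : X ⟶ Y) [IsDominant g],
        g ≫ q = f → IsPGH k q →
        Relation.ReflTransGen (MixStep N₀ (constants k f).fieldRange)
          (pullbackField g).fieldRange ⊤ → IsPGH k f) ∧
      ∀ (n N r : ℕ) (x : Fin n → X.functionField) (L : Fin N → Fin (n + 1) → k)
        (u : X.functionField) (a : Fin N → Fin r → ℤ) (m : Fin r → ℕ)
        (z : Fin r → X.functionField), N₀ n ≤ N → u ≠ 0 →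
        (∀ p : MvPolynomial (Fin n) k, MvPolynomial.eval₂ (constants k f) x p = 0 → p = 0) →
        (∀ s : Finset (Fin N), s.card = n + 1 → LinearIndependent k (fun i : s => L i)) →
        (∀ j, ∏ i, ((constants k f (L i 0) +
          ∑ l : Fin n, constants k f (L i l.succ) * x l) / u) ^ a i j = z j ^ m j) →
        (∀ I : Finset (Fin N), I.Nonempty → I.card ≤ n → ∀ t : ℤ, ∃ j,
          ¬ (m j : ℤ) ∣ ∑ i ∈ I, a i j + t * ∑ i, a i j) →
        (∀ b : X.functionField, IsAlgebraic
          (Subfield.closure (((constants k f).fieldRange : Set X.functionField) ∪ Set.range x))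
            b) → IsPGH k f := by
  obtain ⟨N₁, hN₁⟩ := h1
  have hmono : ∀ n, N₁ n ≤ max (N₁ n) (n + 1) := fun n => le_max_left _ _
  refine ⟨fun n => max (N₁ n) (n + 1), ?_⟩
  intro k _ _ _ X f _ _ _ _
  let _ : Algebra k X.functionField := (constants k f).toAlgebra
  have hstep : ∀ (F₀ : Set X.functionField) (F F' : Subfield X.functionField),
      CovStep (fun n => max (N₁ n) (n + 1)) (algebraMap k X.functionField).fieldRange F F' →
      (∀ a ∈ F, GoodEl2 k F₀ a) → ∀ a ∈ F', GoodEl2 k F₀ a :=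
    fun F₀ F F' hs => hN₁ k X.functionField F₀ F F' (covStep_mono hmono hs)
  have key : Relation.ReflTransGen
      (MixStep (fun n => max (N₁ n) (n + 1)) (constants k f).fieldRange)
        (constants k f).fieldRange ⊤ → IsPGH k f := by
    intro h
    have hgood : ∀ a : X.functionField, GoodEl2 k (∅ : Set X.functionField) a := fun a =>
      good2_of_mixTower (k := k) h3 hstep h
        (by rintro _ ⟨c, rfl⟩; exact (h3 k X.functionField _).2.1 c) a trivial
    refine isPGH_of_fields k f X.functionField (RingEquiv.refl _) (fun c => rfl) ?_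
    intro A hA
    obtain ⟨T, hT, hh⟩ := h2 k X.functionField _ hgood A hA
    refine ⟨T, hT, fun d hd hd0 hTR E _ _ _ P x => ?_⟩
    refine (hh d hd hd0 hTR E P x (fun _ => 0)).subset ?_
    intro φ hφ
    exact ⟨hφ, fun r hr => absurd hr.2 (Set.notMem_empty _)⟩
  refine ⟨key, fun {Y} q _ g _ hgq hY h => ?_, ?_⟩
  · have hgood : ∀ a : X.functionField,
        GoodEl2 k (Set.range (fun b => RingEquiv.refl _ (pullbackField g b))) a := fun a =>
      good2_of_mixTower (k := k) h3 hstep h
        (by rintro _ ⟨b, rfl⟩; exact (h3 k X.functionField _).1 _ ⟨b, rfl⟩) a trivial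
    exact isPGH_of_fields_rel k f q g hgq hY X.functionField (RingEquiv.refl _) (fun c => rfl)
      (h2 k X.functionField _ hgood)
  · intro n N r x L u a m z hN hu hx hL hval hstar halg
    apply key
    apply Relation.ReflTransGen.single
    left
    refine hyperC (k := k) _ _ _ x L u a m (fun _ => 1) z le_top hN
      ((le_max_right _ _).trans hN) ?_ hu hL (fun j => ⟨one_mem _, ?_⟩) hstar
      (fun a _ => halg a)
    · rw [algebraicIndependent_iff]
      intro p hp
      exact hx p hp
    · rw [one_mul]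
      exact hval j

end PGL.H87
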